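import Mathlib

/-!
# Club sets, diagonal intersections and Fodor's lemma in a well order of uncountable cofinality
-/

set_option autoImplicit false
set_option linter.unusedSectionVars false

open Cardinal Order Set

universe u

namespace Pool.Agent.Helper65.Club

section Club

variable {K : Type u} [LinearOrder K] [WellFoundedLT K]

theorem exists_isLUB (s : Set K) (h : BddAbove s) : ∃ a, IsLUB s a := by
  obtain ⟨a, ha, hmin⟩ := wellFounded_lt.has_min (upperBounds s) h
  exact ⟨a, ha, fun b hb => not_lt.1 (hmin b hb)⟩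

/-- In a well order without maximum, sets smaller than the cofinality are strictly bounded. -/
theorem exists_forall_lt_of_mk_lt_cof {s : Set K} (h : #s < cof K) : ∃ b, ∀ a ∈ s, a < b := by
  have : ¬ IsCofinal s := fun hs => (cof_le hs).not_gt h
  rwa [not_isCofinal_iff] at this

theorem isClub_Ioi [NoMaxOrder K] (a : K) : IsClub (Ioi a) := by
  refine ⟨?_, ?_⟩
  · rw [dirSupClosed_iff_of_linearOrder]
    rintro d hd ⟨x, hx⟩ b hb
    exact lt_of_lt_of_le (hd hx) (hb.1 hx)
  · intro x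
    obtain ⟨y, hy⟩ := exists_gt (max a x)
    exact ⟨y, lt_of_le_of_lt (le_max_left _ _) hy, (lt_of_le_of_lt (le_max_right _ _) hy).le⟩

/-- The diagonal intersection of clubs is club. -/
theorem isClub_diag (hK : ℵ₀ < cof K) (hinit : ∀ a : K, #(Iio a) < cof K)
    (C : K → Set K) (hC : ∀ ξ, IsClub (C ξ)) : IsClub {α | ∀ ξ < α, α ∈ C ξ} := by
  have hne : Nonempty K := by
    rw [← cof_ne_zero_iff]
    exact (lt_of_le_of_lt zero_le hK).ne'
  have hno : NoMaxOrder K := by
    have : NoTopOrder K := one_lt_cof_iff.1 (one_lt_aleph0.trans hK)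
    exact NoTopOrder.to_noMaxOrder K
  refine ⟨?_, ?_⟩
  · rw [dirSupClosed_iff_of_linearOrder]
    rintro d hd ⟨x₀, hx₀⟩ a ha ξ hξ
    obtain ⟨x, hx, hξx⟩ := (lt_isLUB_iff ha).1 hξ
    refine (hC ξ).isLUB_mem (t := {x ∈ d | ξ < x}) ?_ ⟨x, hx, hξx⟩ ?_
    · rintro z ⟨hz, hξz⟩
      exact hd hz ξ hξz
    · refine ⟨fun z hz => ha.1 hz.1, fun b hb => ?_⟩
      refine ha.2 fun z hz => ?_
      rcases le_or_gt z ξ with h | h
      · exact h.trans (hξx.le.trans (hb ⟨hx, hξx⟩))
      · exact hb ⟨hz, h⟩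
  · have key : ∀ y : K, ∃ z, y < z ∧ ∀ ξ ≤ y, z ∈ C ξ := by
      intro y
      obtain ⟨y', hy'⟩ := exists_gt y
      have hcl : IsClub (⋂ ξ : Iio y', C ξ.1) := by
        refine IsClub.iInter hK.ne' ?_ (fun ξ => hC _)
        simpa using hinit y'
      obtain ⟨z, hz, hyz⟩ := hcl.isCofinal y'
      refine ⟨z, hy'.trans_le hyz, fun ξ hξ => ?_⟩
      rw [mem_iInter] at hz
      exact hz ⟨ξ, hξ.trans_lt hy'⟩
    choose nx hnx1 hnx2 using key
    intro x
    let a : ℕ → K := fun n => Nat.rec x (fun _ IH => nx IH) n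
    have ha_succ : ∀ n, a (n + 1) = nx (a n) := fun n => rfl
    have ha_lt : ∀ n, a n < a (n + 1) := fun n => hnx1 _
    have ha_mono : StrictMono a := strictMono_nat_of_lt_succ ha_lt
    have hb : BddAbove (range a) := by
      have h1 : #(range a) < cof K := by
        refine lt_of_le_of_lt ?_ hK
        exact le_aleph0_iff_set_countable.2 (countable_range a)
      obtain ⟨b, hb⟩ := exists_forall_lt_of_mk_lt_cof h1
      exact ⟨b, fun y hy => (hb y hy).le⟩
    obtain ⟨s, hs⟩ := exists_isLUB _ hb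
    refine ⟨s, fun ξ hξ => ?_, hs.1 ⟨0, rfl⟩⟩
    obtain ⟨_, ⟨n, rfl⟩, hn⟩ := (lt_isLUB_iff hs).1 hξ
    refine (hC ξ).isLUB_mem (t := range fun m => a (n + m + 1)) ?_ (range_nonempty _) ?_
    · rintro _ ⟨m, rfl⟩
      refine hnx2 _ ξ (hn.le.trans (ha_mono.monotone (by omega)))
    · refine ⟨?_, fun c hc => hs.2 ?_⟩
      · rintro _ ⟨m, rfl⟩
        exact hs.1 (mem_range_self (n + m + 1))
      · rintro _ ⟨m, rfl⟩
        refine (ha_mono.monotone (show m ≤ n + m + 1 by omega)).trans (hc ⟨m, rfl⟩)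

/-- Fodor's pressing down lemma. -/
theorem fodor (hK : ℵ₀ < cof K) (hinit : ∀ a : K, #(Iio a) < cof K) {S : Set K}
    (hS : IsStationary S) (g : K → K) (hg : ∀ a ∈ S, g a < a) :
    ∃ ξ, IsStationary {a ∈ S | g a = ξ} := by
  by_contra hcon
  push Not at hcon
  simp_rw [not_isStationary_iff] at hcon
  choose C hC hdis using hcon
  obtain ⟨a, haS, haC⟩ := hS (isClub_diag hK hinit C hC)
  exact disjoint_left.1 (hdis (g a)) ⟨haS, rfl⟩ (haC _ (hg a haS))

/-- Stationary sets are unbounded and hence as large as the cofinality. -/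
theorem cof_le_mk_of_isStationary [NoMaxOrder K] {S : Set K} (hS : IsStationary S) :
    cof K ≤ #S := by
  by_contra h
  push Not at h
  obtain ⟨b, hb⟩ := exists_forall_lt_of_mk_lt_cof h
  obtain ⟨x, hx, hx'⟩ := hS (isClub_Ioi b)
  exact (hb x hx).not_gt hx'

/-- `HighCof ν α`: every subset of `Iio α` of size at most `ν` is bounded strictly below `α`. -/
def HighCof (ν : Cardinal.{u}) (α : K) : Prop :=
  ∀ s : Set K, s ⊆ Iio α → #s ≤ ν → ∃ b < α, ∀ x ∈ s, x < b

theorem mk_Iic_le {ν : Cardinal.{u}} (hν : ℵ₀ ≤ ν) {x : K} (h : #(Iio x) ≤ ν) :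
    #(Iic x) ≤ ν := by
  have : Iic x = insert x (Iio x) := by
    ext y
    simp [le_iff_eq_or_lt]
  rw [this]
  refine mk_insert_le.trans ?_
  exact add_le_of_le hν h (one_le_aleph0.trans hν)

theorem isStationary_highCof [IsRegularCardinalOrder K] {ν : Cardinal.{u}} (hν : ℵ₀ ≤ ν)
    (hp : ∃ p : K, ν < #(Iio p)) : IsStationary {α : K | HighCof ν α} := by
  intro C hC
  obtain ⟨p, hp, hmin⟩ := wellFounded_lt.has_min {p : K | ν < #(Iio p)} hp
  have hmin' : ∀ q < p, #(Iio q) ≤ ν := fun q hq => by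
    by_contra h
    push Not at h
    exact hmin q h hq
  have hp : ν < #(Iio p) := hp
  -- small subsets of `Iio p` are bounded
  have hbd : ∀ s : Set K, s ⊆ Iio p → #s ≤ ν → ∃ q < p, ∀ x ∈ s, x < q := by
    intro s hs hsν
    by_contra hcon
    push Not at hcon
    have hsub : Iio p ⊆ ⋃ x : s, Iic x.1 := by
      intro q hq
      obtain ⟨x, hx, hqx⟩ := hcon q hq
      exact mem_iUnion.2 ⟨⟨x, hx⟩, hqx⟩
    have h1 : #(Iio p) ≤ ν := by
      refine (mk_le_mk_of_subset hsub).trans ((mk_iUnion_le _).trans ?_)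
      refine (mul_le_mul' hsν (ciSup_le' fun x => ?_)).trans (mul_eq_self hν).le
      exact mk_Iic_le hν (hmin' _ (hs x.2))
    exact hp.not_ge h1
  have hlim : IsSuccLimit p := by
    refine ⟨?_, ?_⟩
    · intro hmn
      have : Iio p = ∅ := by
        ext y
        simpa using hmn.not_lt
      rw [this] at hp
      simp at hp
    · intro b hb
      have : Iio p = Iic b := by
        ext y
        simp only [mem_Iio, mem_Iic]
        exact ⟨fun h => hb.le_of_lt h, fun h => lt_of_le_of_lt h hb.lt⟩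
      rw [this] at hp
      exact hp.not_ge (mk_Iic_le hν (hmin' b hb.lt))
  have hnorm := hC.isNormal_enum
  set e := Order.enum C hC.isCofinal with he
  refine ⟨(e p).1, ?_, (e p).2⟩
  intro s hs hsν
  have h1 : ∀ x : s, ∃ q < p, x.1 < (e q).1 := by
    intro x
    exact (hnorm.lt_iff_exists_lt hlim).1 (hs x.2)
  choose q hqp hxq using h1
  obtain ⟨r, hr, hr'⟩ := hbd (range q) (by rintro _ ⟨x, rfl⟩; exact hqp x) (mk_range_le.trans hsν)
  refine ⟨(e r).1, ?_, fun x hx => ?_⟩
  · exact e.strictMono hr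
  · exact (hxq ⟨x, hx⟩).trans (e.strictMono (hr' _ (mem_range_self _)))

theorem exists_injective_choice {L : Type u} (X : K → Set L)
    (h : ∀ δ, #(Iio δ) < #(X δ)) : ∃ w : K → L, Function.Injective w ∧ ∀ δ, w δ ∈ X δ := by
  have step : ∀ δ (prev : ∀ δ' : K, δ' < δ → L), ∃ z ∈ X δ, ∀ δ' (h : δ' < δ), z ≠ prev δ' h := by
    intro δ prev
    by_contra hcon
    push Not at hcon
    have hsub : X δ ⊆ range (fun i : Iio δ => prev i.1 i.2) := by
      intro z hz
      obtain ⟨δ', hδ', h⟩ := hcon z hz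
      exact ⟨⟨δ', hδ'⟩, h.symm⟩
    exact ((mk_le_mk_of_subset hsub).trans mk_range_le).not_gt (h δ)
  choose F hF1 hF2 using step
  let w : K → L := wellFounded_lt.fix F
  have hw : ∀ δ, w δ = F δ (fun δ' _ => w δ') := fun δ => wellFounded_lt.fix_eq F δ
  have hne : ∀ δ δ', δ' < δ → w δ ≠ w δ' := by
    intro δ δ' h
    rw [hw δ]
    exact hF2 δ _ δ' h
  refine ⟨w, ?_, fun δ => ?_⟩
  · intro a b hab
    rcases lt_trichotomy a b with h | h | h
    · exact absurd hab.symm (hne b a h)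
    · exact h
    · exact absurd hab (hne a b h)
  · rw [hw δ]
    exact hF1 _ _

end Club


end Pool.Agent.Helper65.Club
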