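import Mathlib

/-!
# The polarized partition relation
-/

set_option autoImplicit false

open Cardinal Order Set

universe u

namespace Pool.Agent.Helper65.PODefs

/-- The polarized partition relation `(κ, lam) → (η₀ η₁; η₂ η₃)^{1,1}`: for every partition
`κ × lam = Δ₀ ∪ Δ₁` (cardinals being identified with initial ordinals) either there are
`H₀ ⊆ κ`, `H₁ ⊆ lam` with `|H₀| = η₀`, `|H₁| = η₂` and `H₀ × H₁ ⊆ Δ₀`, or there are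
`H₀ ⊆ κ`, `H₁ ⊆ lam` with `|H₀| = η₁`, `|H₁| = η₃` and `H₀ × H₁ ⊆ Δ₁`. -/
def PolarizedArrow (κ lam η₀ η₁ η₂ η₃ : Cardinal.{u}) : Prop :=
  ∀ Δ₀ Δ₁ : Set (κ.ord.ToType × lam.ord.ToType), Δ₀ ∪ Δ₁ = Set.univ → Disjoint Δ₀ Δ₁ →
    (∃ (H₀ : Set κ.ord.ToType) (H₁ : Set lam.ord.ToType),
      #H₀ = η₀ ∧ #H₁ = η₂ ∧ H₀ ×ˢ H₁ ⊆ Δ₀) ∨
    (∃ (H₀ : Set κ.ord.ToType) (H₁ : Set lam.ord.ToType),
      #H₀ = η₁ ∧ #H₁ = η₃ ∧ H₀ ×ˢ H₁ ⊆ Δ₁)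

end Pool.Agent.Helper65.PODefs
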