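import Mathlib
import Pool.Agent.Helper65.PODefs

/-!
# The polarized partition relation for `ω₂ × ω₃` with entries `ℵ₂, ℵ₂; ℵ₂, ℵ₀`

We prove, from `2 ^ ℵ₀ = ℵ₁` and `2 ^ ℵ₁ = ℵ₂` (two instances of GCH), the relation of Erdős, Hajnal
and Rado: for every partition `ω₂ × ω₃ = Δ₀ ∪ Δ₁` there are either `H₀ ⊆ ω₂`, `H₁ ⊆ ω₃` of size `ℵ₂`
with `H₀ × H₁ ⊆ Δ₀`, or `H₀ ⊆ ω₂` of size `ℵ₂` and `H₁ ⊆ ω₃` of size `ℵ₀` with `H₀ × H₁ ⊆ Δ₁`.

Idea of the proof.  Put `f α y` for `(α, y) ∈ Δ₁`, and assume there is no product set of size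
`ℵ₂ × ℵ₀` in `Δ₁`.  Call `y` good if for every `δ < ω₂` there are `ℵ₃` many `z` such that the columns
of `z` and of `y` agree up to `δ`; all but `ℵ₂` many `y` are good.  The set `T` of `α < ω₂` of
uncountable cofinality is stationary, so for infinitely many good `y` the columns cannot all contain
almost all of `T`; hence for some good `y` the set `S = {α ∈ T : ¬ f α y}` is stationary.  Choose
distinct `w i` (`i < ω₂`) whose columns agree with that of `y` up to `i`.  Since `ℵ₁ ^ ℵ₀ = ℵ₁`,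
for each `ξ < ω₂` almost all rows `α` satisfy `f α (w i)` for only finitely many `i < ξ`; so for
`α ∈ S` in a club, `{i < α : f α (w i)}` is bounded below `α`, and Fodor's lemma gives a stationary
`S' ⊆ S` and `ξ₀` with `¬ f α (w i)` for all `α ∈ S'` and `ξ₀ ≤ i`.
-/

set_option autoImplicit false
set_option linter.unusedSectionVars false

open Cardinal Order Set

universe u

namespace Pool.Agent.Helper65.POProof

open Pool.Agent.Helper65.PODefs

section Club

variable {K : Type u} [LinearOrder K] [WellFoundedLT K]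

theorem exists_isLUB (s : Set K) (h : BddAbove s) : ∃ a, IsLUB s a := by
  obtain ⟨a, ha, hmin⟩ := wellFounded_lt.has_min (upperBounds s) h
  exact ⟨a, ha, fun b hb => not_lt.1 (hmin b hb)⟩

/-- In a well order without maximum, sets smaller than the cofinality are strictly bounded. -/
theorem exists_forall_lt_of_mk_lt_cof {s : Set K} (h : #s < cof K) : ∃ b, ∀ a ∈ s, a < b := by
  have : ¬ IsCofinal s := fun hs => (cof_le hs).not_gt h
  rwa [not_isCofinal_iff] at this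

theorem isClub_Ioi [NoMaxOrder K] (a : K) : IsClub (Ioi a) := by
  refine ⟨?_, ?_⟩
  · rw [dirSupClosed_iff_of_linearOrder]
    rintro d hd ⟨x, hx⟩ b hb
    exact lt_of_lt_of_le (hd hx) (hb.1 hx)
  · intro x
    obtain ⟨y, hy⟩ := exists_gt (max a x)
    exact ⟨y, lt_of_le_of_lt (le_max_left _ _) hy, (lt_of_le_of_lt (le_max_right _ _) hy).le⟩

/-- The diagonal intersection of clubs is club. -/
theorem isClub_diag (hK : ℵ₀ < cof K) (hinit : ∀ a : K, #(Iio a) < cof K)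
    (C : K → Set K) (hC : ∀ ξ, IsClub (C ξ)) : IsClub {α | ∀ ξ < α, α ∈ C ξ} := by
  have hne : Nonempty K := by
    rw [← cof_ne_zero_iff]
    exact (lt_of_le_of_lt zero_le hK).ne'
  have hno : NoMaxOrder K := by
    have : NoTopOrder K := one_lt_cof_iff.1 (one_lt_aleph0.trans hK)
    exact NoTopOrder.to_noMaxOrder K
  refine ⟨?_, ?_⟩
  · rw [dirSupClosed_iff_of_linearOrder]
    rintro d hd ⟨x₀, hx₀⟩ a ha ξ hξ
    obtain ⟨x, hx, hξx⟩ := (lt_isLUB_iff ha).1 hξ
    refine (hC ξ).isLUB_mem (t := {x ∈ d | ξ < x}) ?_ ⟨x, hx, hξx⟩ ?_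
    · rintro z ⟨hz, hξz⟩
      exact hd hz ξ hξz
    · refine ⟨fun z hz => ha.1 hz.1, fun b hb => ?_⟩
      refine ha.2 fun z hz => ?_
      rcases le_or_gt z ξ with h | h
      · exact h.trans (hξx.le.trans (hb ⟨hx, hξx⟩))
      · exact hb ⟨hz, h⟩
  · have key : ∀ y : K, ∃ z, y < z ∧ ∀ ξ ≤ y, z ∈ C ξ := by
      intro y
      obtain ⟨y', hy'⟩ := exists_gt y
      have hcl : IsClub (⋂ ξ : Iio y', C ξ.1) := by
        refine IsClub.iInter hK.ne' ?_ (fun ξ => hC _)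
        simpa using hinit y'
      obtain ⟨z, hz, hyz⟩ := hcl.isCofinal y'
      refine ⟨z, hy'.trans_le hyz, fun ξ hξ => ?_⟩
      rw [mem_iInter] at hz
      exact hz ⟨ξ, hξ.trans_lt hy'⟩
    choose nx hnx1 hnx2 using key
    intro x
    let a : ℕ → K := fun n => Nat.rec x (fun _ IH => nx IH) n
    have ha_succ : ∀ n, a (n + 1) = nx (a n) := fun n => rfl
    have ha_lt : ∀ n, a n < a (n + 1) := fun n => hnx1 _
    have ha_mono : StrictMono a := strictMono_nat_of_lt_succ ha_lt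
    have hb : BddAbove (range a) := by
      have h1 : #(range a) < cof K := by
        refine lt_of_le_of_lt ?_ hK
        exact le_aleph0_iff_set_countable.2 (countable_range a)
      obtain ⟨b, hb⟩ := exists_forall_lt_of_mk_lt_cof h1
      exact ⟨b, fun y hy => (hb y hy).le⟩
    obtain ⟨s, hs⟩ := exists_isLUB _ hb
    refine ⟨s, fun ξ hξ => ?_, hs.1 ⟨0, rfl⟩⟩
    obtain ⟨_, ⟨n, rfl⟩, hn⟩ := (lt_isLUB_iff hs).1 hξ
    refine (hC ξ).isLUB_mem (t := range fun m => a (n + m + 1)) ?_ (range_nonempty _) ?_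
    · rintro _ ⟨m, rfl⟩
      refine hnx2 _ ξ (hn.le.trans (ha_mono.monotone (by omega)))
    · refine ⟨?_, fun c hc => hs.2 ?_⟩
      · rintro _ ⟨m, rfl⟩
        exact hs.1 (mem_range_self (n + m + 1))
      · rintro _ ⟨m, rfl⟩
        refine (ha_mono.monotone (show m ≤ n + m + 1 by omega)).trans (hc ⟨m, rfl⟩)

/-- Fodor's pressing down lemma. -/
theorem fodor (hK : ℵ₀ < cof K) (hinit : ∀ a : K, #(Iio a) < cof K) {S : Set K}
    (hS : IsStationary S) (g : K → K) (hg : ∀ a ∈ S, g a < a) :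
    ∃ ξ, IsStationary {a ∈ S | g a = ξ} := by
  by_contra hcon
  push Not at hcon
  simp_rw [not_isStationary_iff] at hcon
  choose C hC hdis using hcon
  obtain ⟨a, haS, haC⟩ := hS (isClub_diag hK hinit C hC)
  exact disjoint_left.1 (hdis (g a)) ⟨haS, rfl⟩ (haC _ (hg a haS))

/-- Stationary sets are unbounded and hence as large as the cofinality. -/
theorem cof_le_mk_of_isStationary [NoMaxOrder K] {S : Set K} (hS : IsStationary S) :
    cof K ≤ #S := by
  by_contra h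
  push Not at h
  obtain ⟨b, hb⟩ := exists_forall_lt_of_mk_lt_cof h
  obtain ⟨x, hx, hx'⟩ := hS (isClub_Ioi b)
  exact (hb x hx).not_gt hx'

/-- `HighCof ν α`: every subset of `Iio α` of size at most `ν` is bounded strictly below `α`. -/
def HighCof (ν : Cardinal.{u}) (α : K) : Prop :=
  ∀ s : Set K, s ⊆ Iio α → #s ≤ ν → ∃ b < α, ∀ x ∈ s, x < b

theorem mk_Iic_le {ν : Cardinal.{u}} (hν : ℵ₀ ≤ ν) {x : K} (h : #(Iio x) ≤ ν) :
    #(Iic x) ≤ ν := by
  have : Iic x = insert x (Iio x) := by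
    ext y
    simp [le_iff_eq_or_lt]
  rw [this]
  refine mk_insert_le.trans ?_
  exact add_le_of_le hν h (one_le_aleph0.trans hν)

theorem isStationary_highCof [IsRegularCardinalOrder K] {ν : Cardinal.{u}} (hν : ℵ₀ ≤ ν)
    (hp : ∃ p : K, ν < #(Iio p)) : IsStationary {α : K | HighCof ν α} := by
  intro C hC
  obtain ⟨p, hp, hmin⟩ := wellFounded_lt.has_min {p : K | ν < #(Iio p)} hp
  have hmin' : ∀ q < p, #(Iio q) ≤ ν := fun q hq => by
    by_contra h
    push Not at h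
    exact hmin q h hq
  have hp : ν < #(Iio p) := hp
  -- small subsets of `Iio p` are bounded
  have hbd : ∀ s : Set K, s ⊆ Iio p → #s ≤ ν → ∃ q < p, ∀ x ∈ s, x < q := by
    intro s hs hsν
    by_contra hcon
    push Not at hcon
    have hsub : Iio p ⊆ ⋃ x : s, Iic x.1 := by
      intro q hq
      obtain ⟨x, hx, hqx⟩ := hcon q hq
      exact mem_iUnion.2 ⟨⟨x, hx⟩, hqx⟩
    have h1 : #(Iio p) ≤ ν := by
      refine (mk_le_mk_of_subset hsub).trans ((mk_iUnion_le _).trans ?_)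
      refine (mul_le_mul' hsν (ciSup_le' fun x => ?_)).trans (mul_eq_self hν).le
      exact mk_Iic_le hν (hmin' _ (hs x.2))
    exact hp.not_ge h1
  have hlim : IsSuccLimit p := by
    refine ⟨?_, ?_⟩
    · intro hmn
      have : Iio p = ∅ := by
        ext y
        simpa using hmn.not_lt
      rw [this] at hp
      simp at hp
    · intro b hb
      have : Iio p = Iic b := by
        ext y
        simp only [mem_Iio, mem_Iic]
        exact ⟨fun h => hb.le_of_lt h, fun h => lt_of_le_of_lt h hb.lt⟩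
      rw [this] at hp
      exact hp.not_ge (mk_Iic_le hν (hmin' b hb.lt))
  have hnorm := hC.isNormal_enum
  set e := Order.enum C hC.isCofinal with he
  refine ⟨(e p).1, ?_, (e p).2⟩
  intro s hs hsν
  have h1 : ∀ x : s, ∃ q < p, x.1 < (e q).1 := by
    intro x
    exact (hnorm.lt_iff_exists_lt hlim).1 (hs x.2)
  choose q hqp hxq using h1
  obtain ⟨r, hr, hr'⟩ := hbd (range q) (by rintro _ ⟨x, rfl⟩; exact hqp x) (mk_range_le.trans hsν)
  refine ⟨(e r).1, ?_, fun x hx => ?_⟩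
  · exact e.strictMono hr
  · exact (hxq ⟨x, hx⟩).trans (e.strictMono (hr' _ (mem_range_self _)))

theorem exists_injective_choice {L : Type u} (X : K → Set L)
    (h : ∀ δ, #(Iio δ) < #(X δ)) : ∃ w : K → L, Function.Injective w ∧ ∀ δ, w δ ∈ X δ := by
  have step : ∀ δ (prev : ∀ δ' : K, δ' < δ → L), ∃ z ∈ X δ, ∀ δ' (h : δ' < δ), z ≠ prev δ' h := by
    intro δ prev
    by_contra hcon
    push Not at hcon
    have hsub : X δ ⊆ range (fun i : Iio δ => prev i.1 i.2) := by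
      intro z hz
      obtain ⟨δ', hδ', h⟩ := hcon z hz
      exact ⟨⟨δ', hδ'⟩, h.symm⟩
    exact ((mk_le_mk_of_subset hsub).trans mk_range_le).not_gt (h δ)
  choose F hF1 hF2 using step
  let w : K → L := wellFounded_lt.fix F
  have hw : ∀ δ, w δ = F δ (fun δ' _ => w δ') := fun δ => wellFounded_lt.fix_eq F δ
  have hne : ∀ δ δ', δ' < δ → w δ ≠ w δ' := by
    intro δ δ' h
    rw [hw δ]
    exact hF2 δ _ δ' h
  refine ⟨w, ?_, fun δ => ?_⟩
  · intro a b hab
    rcases lt_trichotomy a b with h | h | h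
    · exact absurd hab.symm (hne b a h)
    · exact h
    · exact absurd hab (hne a b h)
  · rw [hw δ]
    exact hF1 _ _

end Club

/-- The main theorem, in the abstract: `K` is (order isomorphic to) a regular uncountable cardinal
`κ` with `2 ^ c ≤ κ` and `c ^ ν < κ` for all `c < κ`, and `L` is a set of size greater than `κ`. -/
theorem main {K L : Type u} [LinearOrder K] [WellFoundedLT K] [IsRegularCardinalOrder K]
    (hK : ℵ₀ < #K) (hinit : ∀ a : K, #(Iio a) < #K) (hL : #K < #L)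
    {ν : Cardinal.{u}} (hν : ℵ₀ ≤ ν) (hpow : ∀ c < #K, c ^ ν < #K) (h2 : ∀ c < #K, 2 ^ c ≤ #K)
    (f : K → L → Prop) :
    (∃ (H₀ : Set K) (H₁ : Set L), #H₀ = #K ∧ #H₁ = #K ∧ ∀ a ∈ H₀, ∀ y ∈ H₁, ¬ f a y) ∨
    (∃ (H₀ : Set K) (H₁ : Set L), #H₀ = #K ∧ #H₁ = ν ∧ ∀ a ∈ H₀, ∀ y ∈ H₁, f a y) := by
  rw [or_iff_not_imp_right]
  intro hno
  have hcof : cof K = #K := cof_eq_cardinalMk
  have hKcof : ℵ₀ < cof K := by rwa [hcof]
  have hinit' : ∀ a : K, #(Iio a) < cof K := by rwa [hcof]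
  have hKinf : ℵ₀ ≤ #K := hK.le
  have hne : Nonempty K := by
    rw [← mk_ne_zero_iff]
    exact (lt_of_le_of_lt zero_le hK).ne'
  have hnomax : NoMaxOrder K := by
    have : NoTopOrder K := one_lt_cof_iff.1 (one_lt_aleph0.trans hKcof)
    exact NoTopOrder.to_noMaxOrder K
  have h2ν : 2 ^ ν < #K := hpow 2 ((ofNat_lt_aleph0).trans hK)
  have hνK : ν < #K := (cantor ν).trans h2ν
  have hno1 : ∀ (H₀ : Set K) (H₁ : Set L), #H₁ = ν → (∀ a ∈ H₀, ∀ y ∈ H₁, f a y) → #H₀ < #K := by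
    intro H₀ H₁ h1 h
    refine lt_of_le_of_ne (mk_set_le _) fun h0 => hno ⟨H₀, H₁, h0, h1, h⟩
  have hIic : ∀ a : K, #(Iic a) < #K := by
    intro a
    obtain ⟨b, hb⟩ := exists_gt a
    refine lt_of_le_of_lt (mk_le_mk_of_subset ?_) (hinit b)
    exact fun x hx => lt_of_le_of_lt hx hb
  -- good points of `L`
  let Lp : K → L → Set L := fun δ y => {z | ∀ a ≤ δ, f a z ↔ f a y}
  let Bad : Set L := {y | ∃ δ, #(Lp δ y) ≤ #K}
  have hBad : #Bad ≤ #K := by
    have hsub : Bad ⊆ ⋃ δ : K, ⋃ p : Set (Iic δ),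
        {y : L | #(Lp δ y) ≤ #K ∧ {a : Iic δ | f a.1 y} = p} := by
      rintro y ⟨δ, hδ⟩
      simp only [mem_iUnion]
      exact ⟨δ, _, hδ, rfl⟩
    refine (mk_le_mk_of_subset hsub).trans ((mk_iUnion_le _).trans ?_)
    refine (mul_le_mul' le_rfl (ciSup_le' fun δ => ?_)).trans (mul_eq_self hKinf).le
    refine (mk_iUnion_le _).trans ?_
    refine (mul_le_mul' ?_ (ciSup_le' fun p => ?_)).trans (mul_eq_self hKinf).le
    · rw [mk_set]
      exact h2 _ (hIic δ)
    · rcases eq_empty_or_nonempty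
        {y : L | #(Lp δ y) ≤ #K ∧ {a : Iic δ | f a.1 y} = p} with h | ⟨y, hy, hyp⟩
      · rw [h]
        simp
      · refine (mk_le_mk_of_subset ?_).trans hy
        rintro z ⟨-, hz⟩ a ha
        rw [← hyp] at hz
        have := Set.ext_iff.1 hz ⟨a, ha⟩
        simpa using this
  have hGood : #K < #(Badᶜ : Set L) := by
    by_contra h
    push Not at h
    have := mk_sum_compl Bad
    exact (this ▸ (add_le_of_le hKinf hBad h)).not_gt hL
  obtain ⟨G, hG, hGν⟩ := le_mk_iff_exists_subset.1 (hνK.trans hGood).le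
  -- the stationary set of points of high cofinality
  have hT : IsStationary {α : K | HighCof ν α} := by
    refine isStationary_highCof hν ?_
    by_contra hcon
    push Not at hcon
    have hlt : succ ν < #K := (succ_le_of_lt (cantor ν)).trans_lt h2ν
    obtain ⟨s, hs⟩ : ∃ s : Set K, #s = succ ν := le_mk_iff_exists_set.1 hlt.le
    obtain ⟨b, hb⟩ := exists_forall_lt_of_mk_lt_cof (s := s) (by rw [hs, hcof]; exact hlt)
    have h3 : succ ν ≤ #(Iio b) := hs ▸ mk_le_mk_of_subset hb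
    exact (lt_of_lt_of_le (lt_succ ν) h3).not_ge (hcon b)
  have hTG : ∃ y ∈ G, IsStationary {α : K | HighCof ν α ∧ ¬ f α y} := by
    have hsplit : {α : K | HighCof ν α} =
        {α : K | HighCof ν α ∧ ∀ y ∈ G, f α y} ∪
          ⋃ y : G, {α : K | HighCof ν α ∧ ¬ f α y.1} := by
      ext α
      constructor
      · intro hα
        by_cases h : ∀ y ∈ G, f α y
        · exact Or.inl ⟨hα, h⟩
        · push Not at h
          obtain ⟨y, hy, hy'⟩ := h
          exact Or.inr (mem_iUnion.2 ⟨⟨y, hy⟩, hα, hy'⟩)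
      · rintro (h | h)
        · exact h.1
        · obtain ⟨_, h⟩ := mem_iUnion.1 h
          exact h.1
    rw [hsplit, isStationary_union_iff hKcof.ne'] at hT
    rcases hT with hT | hT
    · exfalso
      have h1 := cof_le_mk_of_isStationary hT
      rw [hcof] at h1
      exact (hno1 _ G hGν fun a ha y hy => ha.2 y hy).not_ge h1
    · rw [isStationary_iUnion_iff hKcof.ne' (by simpa [hcof, hGν] using hνK)] at hT
      obtain ⟨y, hy⟩ := hT
      exact ⟨y.1, y.2, hy⟩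
  obtain ⟨y, hyG, hS⟩ := hTG
  have hy : ∀ δ, #K < #(Lp δ y) := by
    intro δ
    by_contra h
    push Not at h
    exact hG hyG ⟨δ, h⟩
  obtain ⟨w, hwinj, hw⟩ := exists_injective_choice (fun δ => Lp δ y)
    (fun δ => (hinit δ).trans (hy δ))
  -- for each `ξ`, almost all rows meet `w '' Iio ξ` in a set smaller than `ν`
  have hbd : ∀ ξ : K, ∃ b : K, ∀ α : K, b ≤ α → #{i : K | i < ξ ∧ f α (w i)} < ν := by
    intro ξ
    have hD : #{α : K | ν ≤ #{i : K | i < ξ ∧ f α (w i)}} < #K := by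
      by_contra hcon
      push Not at hcon
      have hD : #{α : K | ν ≤ #{i : K | i < ξ ∧ f α (w i)}} = #K := (mk_set_le _).antisymm hcon
      have hch : ∀ α : {α : K | ν ≤ #{i : K | i < ξ ∧ f α (w i)}},
          ∃ s : {t : Set K // t ⊆ Iio ξ ∧ #t ≤ ν}, #s.1 = ν ∧ ∀ i ∈ s.1, f α.1 (w i) := by
        rintro ⟨α, hα⟩
        obtain ⟨s, hs, hsν⟩ := le_mk_iff_exists_subset.1 hα
        exact ⟨⟨s, fun i hi => (hs hi).1, hsν.le⟩, hsν, fun i hi => (hs hi).2⟩
      choose g hg1 hg2 using hch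
      have hcard : #{t : Set K // t ⊆ Iio ξ ∧ #t ≤ ν} < #K := by
        refine (mk_bounded_subset_le _ _).trans_lt (hpow _ ?_)
        exact max_lt (hinit ξ) hK
      obtain ⟨s, hs⟩ := infinite_pigeonhole g (by rw [hD]; exact hKinf) (by
        rw [hD, ord_cardinalMk, Ordinal.cof_type, hcof]
        exact hcard)
      rw [hD] at hs
      have hne' : (g ⁻¹' {s}).Nonempty := by
        rw [← Set.nonempty_coe_sort, ← mk_ne_zero_iff, hs]
        exact (lt_of_le_of_lt zero_le hK).ne'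
      obtain ⟨α₀, hα₀⟩ := hne'
      have hα₀ : g α₀ = s := hα₀
      have h1 : #(w '' s.1) = ν := by
        rw [mk_image_eq hwinj, ← hα₀]
        exact hg1 α₀
      have h3 := hno1 (Subtype.val '' (g ⁻¹' {s})) (w '' s.1) h1 (by
        rintro _ ⟨α, hα, rfl⟩ _ ⟨i, hi, rfl⟩
        have hα : g α = s := hα
        rw [← hα] at hi
        exact hg2 α i hi)
      rw [mk_image_eq Subtype.val_injective, hs] at h3
      exact lt_irrefl _ h3
    obtain ⟨b, hb⟩ := exists_forall_lt_of_mk_lt_cof (by rwa [hcof])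
    refine ⟨b, fun α hα => ?_⟩
    by_contra hcon
    push Not at hcon
    exact (hb α hcon).not_ge hα
  choose bd hbd using hbd
  have hC : IsClub {α : K | ∀ ξ < α, α ∈ Ioi (bd ξ)} :=
    isClub_diag hKcof hinit' _ fun ξ => isClub_Ioi _
  have hS' : IsStationary ({α : K | HighCof ν α ∧ ¬ f α y} ∩ {α : K | ∀ ξ < α, α ∈ Ioi (bd ξ)}) := by
    intro t ht
    rw [inter_assoc]
    exact hS (hC.inter hKcof.ne' ht)
  -- pressing down
  have hpress : ∀ α : K, ∃ g : K, (HighCof ν α ∧ (∀ ξ < α, α ∈ Ioi (bd ξ))) →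
      g < α ∧ ∀ i < α, f α (w i) → i < g := by
    intro α
    by_cases hα : HighCof ν α ∧ (∀ ξ < α, α ∈ Ioi (bd ξ))
    · obtain ⟨hα1, hα2⟩ := hα
      have hsmall : #{i : K | i < α ∧ f α (w i)} ≤ ν := by
        by_contra hcon
        push Not at hcon
        obtain ⟨s, hs, hsν⟩ := le_mk_iff_exists_subset.1 hcon.le
        obtain ⟨b, hb, hb'⟩ := hα1 s (fun i hi => (hs hi).1) hsν.le
        have h1 : s ⊆ {i : K | i < b ∧ f α (w i)} := fun i hi => ⟨hb' i hi, (hs hi).2⟩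
        have h3 := hbd b α (hα2 b hb).le
        exact ((mk_le_mk_of_subset h1).trans_lt h3).ne hsν
      obtain ⟨b, hb, hb'⟩ := hα1 _ (fun i hi => hi.1) hsmall
      exact ⟨b, fun _ => ⟨hb, fun i hi hf => hb' i ⟨hi, hf⟩⟩⟩
    · exact ⟨α, fun h => absurd h hα⟩
  choose g hg using hpress
  obtain ⟨ξ₀, hξ₀⟩ := fodor hKcof hinit' hS' g (fun a ha => (hg a ⟨ha.1.1, ha.2⟩).1)
  refine ⟨_, w '' (Ici ξ₀), (mk_set_le _).antisymm (hcof ▸ cof_le_mk_of_isStationary hξ₀), ?_, ?_⟩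
  · rw [mk_image_eq hwinj]
    refine (mk_set_le _).antisymm ?_
    rw [← hcof]
    refine cof_le fun x => ⟨max x ξ₀, le_max_right _ _, le_max_left _ _⟩
  · rintro α ⟨⟨⟨hα1, hα2⟩, hα3⟩, hα4⟩ _ ⟨i, hi, rfl⟩ hf
    rcases lt_or_ge i α with h | h
    · have := (hg α ⟨hα1, hα3⟩).2 i h hf
      rw [hα4] at this
      exact this.not_ge hi
    · exact hα2 ((hw i α h).1 hf)

/-- The general form: if `κ` is regular and uncountable, `2 ^ c ≤ κ` and `c ^ ν < κ` for all
`c < κ`, then `(κ, κ⁺) → (κ κ; κ ν)^{1,1}`. -/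
theorem polarizedArrow_of_regular {κ ν : Cardinal.{u}} (hκ : κ.IsRegular) (hκ0 : ℵ₀ < κ)
    (hν : ℵ₀ ≤ ν) (hpow : ∀ c < κ, c ^ ν < κ) (h2 : ∀ c < κ, 2 ^ c ≤ κ) :
    PolarizedArrow κ (Order.succ κ) κ κ κ ν := by
  intro Δ₀ Δ₁ hΔ _
  have hK : #κ.ord.ToType = κ := mk_ord_toType κ
  have hL : #(Order.succ κ).ord.ToType = Order.succ κ := mk_ord_toType _
  have hcof : Order.cof κ.ord.ToType = κ := by rw [Ordinal.cof_toType]; exact hκ.cof_ord
  have hreg : IsRegularCardinalOrder κ.ord.ToType := ⟨by rw [hcof, Ordinal.type_toType]⟩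
  have hlt : ∀ a : κ.ord.ToType, #(Iio a) < κ := fun a => by
    have := mk_Iio_lt a (by rw [hK, Ordinal.type_toType])
    rwa [hK] at this
  have := main (K := κ.ord.ToType) (L := (Order.succ κ).ord.ToType) (ν := ν)
    (by rwa [hK]) (fun a => by rw [hK]; exact hlt a)
    (by rw [hK, hL]; exact lt_succ κ) hν (by rwa [hK]) (by rwa [hK]) (fun a y => (a, y) ∈ Δ₁)
  rcases this with ⟨H₀, H₁, h0, h1, h⟩ | ⟨H₀, H₁, h0, h1, h⟩
  · refine Or.inl ⟨H₀, H₁, h0.trans hK, h1.trans hK, ?_⟩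
    rintro ⟨a, y⟩ ⟨ha, hy⟩
    have h3 : (a, y) ∈ Δ₀ ∪ Δ₁ := hΔ ▸ mem_univ _
    exact h3.resolve_right (h a ha y hy)
  · refine Or.inr ⟨H₀, H₁, h0.trans hK, h1, ?_⟩
    rintro ⟨a, y⟩ ⟨ha, hy⟩
    exact h a ha y hy

/-- **The relation of Erdős, Hajnal and Rado holds under GCH.**  If `2 ^ ℵ₀ = ℵ₁` and
`2 ^ ℵ₁ = ℵ₂`, then `(ℵ₂, ℵ₃) → (ℵ₂ ℵ₂; ℵ₂ ℵ₀)^{1,1}`. -/
theorem main_result (ch : (2 : Cardinal.{u}) ^ (ℵ₀ : Cardinal.{u}) = ℵ₁)
    (ch₁ : (2 : Cardinal.{u}) ^ (ℵ₁ : Cardinal.{u}) = ℵ_ 2) :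
    PolarizedArrow.{u} (ℵ_ 2) (ℵ_ 3) (ℵ_ 2) (ℵ_ 2) (ℵ_ 2) ℵ₀ := by
  have h12 : (ℵ_ 2 : Cardinal.{u}) = Order.succ ℵ₁ := by
    rw [← one_add_one_eq_two, ← succ_aleph]
  have h23 : (ℵ_ 3 : Cardinal.{u}) = Order.succ (ℵ_ 2) := by
    rw [show (3 : Ordinal.{u}) = 2 + 1 from two_add_one_eq_three.symm, ← succ_aleph]
  have h01 : (ℵ₀ : Cardinal.{u}) < ℵ₁ := aleph0_lt_aleph_one
  have hlt : ∀ c : Cardinal.{u}, c < ℵ_ 2 → c ≤ ℵ₁ := fun c hc => by
    rw [h12] at hc
    exact le_of_lt_succ hc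
  have hreg : (ℵ_ 2 : Cardinal.{u}).IsRegular := by
    rw [h12]
    exact isRegular_succ h01.le
  rw [h23]
  refine polarizedArrow_of_regular hreg ?_ le_rfl ?_ ?_
  · rw [h12]
    exact h01.trans (lt_succ _)
  · intro c hc
    refine (power_le_power_right (hlt c hc)).trans_lt ?_
    have : (ℵ₁ : Cardinal.{u}) ^ (ℵ₀ : Cardinal.{u}) = ℵ₁ := by
      rw [← ch, ← power_mul, aleph0_mul_aleph0]
    rw [this, h12]
    exact lt_succ _
  · intro c hc
    rw [← ch₁]
    exact power_le_power_left two_ne_zero (hlt c hc)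

end Pool.Agent.Helper65.POProof
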