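import Mathlib

/-!
# Guessing models, and the forcing relation for trees of height `κ⁺⁺`

All objects live in the universe `ZFSet.{u}` of sets; a set-sized forcing notion is (isomorphic to)
a preorder `P : Type u`.
-/

set_option autoImplicit false

open Cardinal Order Set

universe u

namespace Pool.Agent.Helper65.TPDefs

/-! ## `H(θ)`, elementary submodels, clubs in `P_λ(H(θ))` -/

/-- `H(θ)`: the sets which, together with all their hereditary members, have cardinality `< θ`. -/
def HSet (θ : Cardinal.{u}) : Set ZFSet.{u} :=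
  {x | x.Hereditarily fun y => y.card < θ}

/-- The relation symbols of the language of set theory: one binary symbol. -/
inductive MemRel : ℕ → Type
  /-- the symbol for membership -/
  | mem : MemRel 2

/-- The first-order language of set theory: one binary relation symbol, no function symbols. -/
def setLang : FirstOrder.Language.{0, 0} := ⟨fun _ => Empty, MemRel⟩

/-- A set `A` of sets as a structure `(A, ∈)` for the language of set theory. -/
instance setStructure (A : Set ZFSet.{u}) : setLang.Structure A where
  funMap := fun f => Empty.elim f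
  RelMap
    | .mem => fun x => (x 0 : ZFSet.{u}) ∈ (x 1 : ZFSet.{u})

/-- `M ≺ A`: `M ⊆ A` and `(M, ∈)` is a (first-order) elementary substructure of `(A, ∈)`. -/
def IsElementary (M A : Set ZFSet.{u}) : Prop :=
  ∃ N : setLang.ElementarySubstructure A, Subtype.val '' (N : Set A) = M

/-- `C` is club in `P_lam(A)`, the family of the subsets of `A` of size `< lam`: it is a cofinal
subfamily which is closed under unions of nonempty chains of fewer than `lam` members. -/
def IsClubIn (lam : Cardinal.{u + 1}) (A : Set ZFSet.{u}) (C : Set (Set ZFSet.{u})) : Prop :=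
  (∀ x ∈ C, x ⊆ A ∧ #x < lam) ∧
  (∀ x ⊆ A, #x < lam → ∃ y ∈ C, x ⊆ y) ∧
  (∀ D ⊆ C, D.Nonempty → IsChain (· ⊆ ·) D → #D < lam → ⋃₀ D ∈ C)

/-- `T` is stationary in `P_lam(A)`: it meets every club. -/
def IsStationaryIn (lam : Cardinal.{u + 1}) (A : Set ZFSet.{u}) (T : Set (Set ZFSet.{u})) : Prop :=
  ∀ C, IsClubIn lam A C → ∃ M ∈ T, M ∈ C

/-! ## Guessing models and `GMP_{κ⁺⁺}` -/

/-- `M` is `κ⁺`-guessing: whenever `z ∈ M` and `d ⊆ z` is such that `d ∩ a ∈ M` for all `a ∈ M`
with `|a| ≤ κ`, there is `e ∈ M` with `e ∩ M = d ∩ M`. -/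
def IsGuessing (κ : Cardinal.{u}) (M : Set ZFSet.{u}) : Prop :=
  ∀ z ∈ M, ∀ d ⊆ z, (∀ a ∈ M, a.card ≤ κ → d ∩ a ∈ M) → ∃ e ∈ M, ∀ x ∈ M, x ∈ e ↔ x ∈ d

/-- The sequence `⟨f ξ : ξ < γ⟩` as a set: the set of the ordered pairs `(ξ, f ξ)`, `ξ < γ`. -/
noncomputable def seqCode (γ : Ordinal.{u}) (f : Iio γ → ZFSet.{u}) : ZFSet.{u} :=
  ZFSet.range fun ξ : Iio γ => ZFSet.pair (Ordinal.toZFSet ξ.1) (f ξ)

/-- `^{<κ} M ⊆ M`: all sequences of length less than `κ` of elements of `M` belong to `M`. -/
def ClosedUnderSeq (κ : Cardinal.{u}) (M : Set ZFSet.{u}) : Prop :=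
  ∀ γ < κ.ord, ∀ f : Iio γ → ZFSet.{u}, (∀ ξ, f ξ ∈ M) → seqCode γ f ∈ M

/-- The guessing model principle `GMP_{κ⁺⁺}`: for every regular `θ ≥ κ⁺⁺` the set of the
`κ⁺`-guessing `M ≺ H(θ)` of size `κ⁺` with `^{<κ} M ⊆ M` is stationary in `P_{κ⁺⁺}(H(θ))`. -/
def GMP (κ : Cardinal.{u}) : Prop :=
  ∀ θ : Cardinal.{u}, θ.IsRegular → succ (succ κ) ≤ θ →
    IsStationaryIn (lift.{u + 1} (succ (succ κ))) (HSet θ)
      {M | IsElementary M (HSet θ) ∧ #M = lift.{u + 1} (succ κ) ∧ IsGuessing κ M ∧
        ClosedUnderSeq κ M}

/-! ## Forcing -/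

/-- A forcing notion `P` (`q ≤ p` means that `q` extends `p`) is `κ⁺`-centered: it is the union of
`κ` many directed pieces, `Q i`, `i < κ`, where directed means that any two elements of the piece
have a common extension in the piece. -/
def IsCentered (κ : Cardinal.{u}) (P : Type u) [Preorder P] : Prop :=
  ∃ Q : κ.ord.ToType → Set P,
    (∀ i, ∀ p ∈ Q i, ∀ q ∈ Q i, ∃ r ∈ Q i, r ≤ p ∧ r ≤ q) ∧ ∀ p, ∃ i, p ∈ Q i

/-- A `P`-name for a subset of the ground model set `A`: a set of pairs `(a, c)`, read as
`ǎ` belongs to the set if `c` is in the generic filter. -/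
abbrev Name (P A : Type u) : Type u := Set (A × P)

/-- Sentences of the (infinitary) forcing language about names for subsets of ground model sets. -/
inductive Sentence (P : Type u) : Type (u + 1)
  /-- `ǎ ∈ X` -/
  | mem {A : Type u} (a : A) (X : Name P A) : Sentence P
  /-- a statement about the ground model -/
  | ground (φ : Prop) : Sentence P
  /-- negation -/
  | neg (φ : Sentence P) : Sentence P
  /-- conjunction -/
  | and (φ ψ : Sentence P) : Sentence P
  /-- infinite conjunction, also used as the quantifier over ground model objects and names -/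
  | all {ι : Type u} (φ : ι → Sentence P) : Sentence P

/-- The forcing relation. -/
def Forces {P : Type u} [Preorder P] : P → Sentence P → Prop
  | p, .mem a X => ∀ q ≤ p, ∃ r ≤ q, ∃ c, (a, c) ∈ X ∧ r ≤ c
  | _, .ground φ => φ
  | p, .neg φ => ∀ q ≤ p, ¬ Forces q φ
  | p, .and φ ψ => Forces p φ ∧ Forces p ψ
  | p, .all φ => ∀ i, Forces p (φ i)

namespace Sentence

variable {P : Type u}

/-- disjunction -/
def or (φ ψ : Sentence P) : Sentence P := neg (and (neg φ) (neg ψ))

/-- implication -/
def imp (φ ψ : Sentence P) : Sentence P := neg (and φ (neg ψ))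

/-- infinite disjunction, existential quantifier -/
def ex {ι : Type u} (φ : ι → Sentence P) : Sentence P := neg (all fun i => neg (φ i))

end Sentence

/-! ## Trees of height `κ⁺⁺` with levels of size at most `κ⁺`

The node set is a subset `X` of `κ⁺⁺ × κ⁺`, where `(α, i)` is on level `α`. -/

/-- The ground model set `κ⁺⁺ × κ⁺` of potential nodes; `(α, i)` is a potential node of level
`α`. -/
abbrev Node (κ : Cardinal.{u}) : Type u := (succ (succ κ)).ord.ToType × (succ κ).ord.ToType

open Sentence in
/-- The sentence of the forcing language: `(X, R)` is a `κ⁺⁺`-tree, with level `α` being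
`X ∩ ({α} × κ⁺)`. That is: `R` is a transitive relation between elements of `X` which increases the
levels; every node of `X` has, on every level below its own, exactly one predecessor; and no level
`α < κ⁺⁺` is empty. -/
def isTree (κ : Cardinal.{u}) (P : Type u) (X : Name P (Node κ)) (R : Name P (Node κ × Node κ)) :
    Sentence P :=
  and (all fun s : Node κ => all fun t : Node κ =>
      imp (mem (s, t) R) (and (mem s X) (and (mem t X) (ground (s.1 < t.1))))) <|
  and (all fun s : Node κ => all fun t : Node κ => all fun v : Node κ =>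
      imp (and (mem (s, t) R) (mem (t, v) R)) (mem (s, v) R)) <|
  and (all fun t : Node κ => all fun α : (succ (succ κ)).ord.ToType =>
      imp (and (mem t X) (ground (α < t.1)))
        (ex fun i : (succ κ).ord.ToType => mem ((α, i), t) R)) <|
  and (all fun t : Node κ => all fun α : (succ (succ κ)).ord.ToType =>
      all fun i : (succ κ).ord.ToType => all fun j : (succ κ).ord.ToType =>
      imp (and (mem ((α, i), t) R) (mem ((α, j), t) R)) (ground (i = j))) <|
  all fun α : (succ (succ κ)).ord.ToType => ex fun i : (succ κ).ord.ToType => mem (α, i) X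

open Sentence in
/-- The sentence of the forcing language: `B` is a cofinal branch of `(X, R)`, that is, a set of
pairwise comparable nodes which has an element on every level. -/
def isBranch (κ : Cardinal.{u}) (P : Type u) (X : Name P (Node κ)) (R : Name P (Node κ × Node κ))
    (B : Name P (Node κ)) : Sentence P :=
  and (all fun s : Node κ => imp (mem s B) (mem s X)) <|
  and (all fun s : Node κ => all fun t : Node κ => imp (and (mem s B) (mem t B))
      (or (ground (s = t)) (or (mem (s, t) R) (mem (t, s) R)))) <|
  all fun α : (succ (succ κ)).ord.ToType => ex fun i : (succ κ).ord.ToType => mem (α, i) B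

open Sentence in
/-- `P` forces the tree property at `κ⁺⁺`: every condition forces that every `κ⁺⁺`-tree has a
cofinal branch, in other words, that there is no `κ⁺⁺`-Aronszajn tree. -/
def ForcesTP (κ : Cardinal.{u}) (P : Type u) [Preorder P] : Prop :=
  ∀ p : P, Forces p (all fun X : Name P (Node κ) => all fun R : Name P (Node κ × Node κ) =>
    imp (isTree κ P X R) (ex fun B : Name P (Node κ) => isBranch κ P X R B))

end Pool.Agent.Helper65.TPDefs
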