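import Mathlib
import Pool.Agent.Helper65.Club
import Pool.Agent.Helper65.TPDefs

/-!
# Basic facts about `H(θ)` and about families of sets closed under given functions
-/

set_option autoImplicit false
set_option linter.unusedSectionVars false

open Cardinal Order Set

universe u

namespace Pool.Agent.Helper65.TPPart1

open Pool.Agent.Helper65.TPDefs

theorem mem_HSet_iff {θ : Cardinal.{u}} {x : ZFSet.{u}} :
    x ∈ HSet θ ↔ x.card < θ ∧ ∀ y ∈ x, y ∈ HSet θ := ZFSet.hereditarily_iff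

theorem HSet_mem {θ : Cardinal.{u}} {x y : ZFSet.{u}} (hx : x ∈ HSet θ) (hy : y ∈ x) :
    y ∈ HSet θ := (mem_HSet_iff.1 hx).2 y hy

theorem HSet_card {θ : Cardinal.{u}} {x : ZFSet.{u}} (hx : x ∈ HSet θ) :
    x.card < θ := (mem_HSet_iff.1 hx).1

theorem HSet_subset {θ : Cardinal.{u}} {x y : ZFSet.{u}} (hx : x ∈ HSet θ) (hy : y ⊆ x) :
    y ∈ HSet θ :=
  mem_HSet_iff.2 ⟨(ZFSet.card_mono hy).trans_lt (HSet_card hx), fun _ hz => HSet_mem hx (hy hz)⟩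

theorem exists_mem_HSet (x : ZFSet.{u}) : ∃ c : Cardinal.{u}, ∀ θ, c ≤ θ → x ∈ HSet θ := by
  induction x using ZFSet.inductionOn with
  | h x ih =>
    choose! c hc using ih
    have hbd : BddAbove (range fun y : x => c y.1) := bddAbove_of_small
    refine ⟨max (succ x.card) (⨆ y : x, c y.1), fun θ hθ => mem_HSet_iff.2 ⟨?_, fun y hy => ?_⟩⟩
    · exact (lt_succ _).trans_le ((le_max_left _ _).trans hθ)
    · exact hc y hy θ ((le_ciSup hbd (⟨y, hy⟩ : x)).trans ((le_max_right _ _).trans hθ))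

/-- closure of a set under a family of binary functions, as far as the values lie in `A` -/
def Closed (F : Set (ZFSet.{u} → ZFSet.{u} → ZFSet.{u})) (A Y : Set ZFSet.{u}) : Prop :=
  ∀ Φ ∈ F, ∀ a ∈ Y, ∀ b ∈ Y, Φ a b ∈ A → Φ a b ∈ Y

theorem mk_step_le {μ : Cardinal.{u + 1}} (hμ : ℵ₀ ≤ μ)
    (F : Set (ZFSet.{u} → ZFSet.{u} → ZFSet.{u})) (hF : #F ≤ μ) (A Y : Set ZFSet.{u})
    (hY : #Y ≤ μ) :
    #(Y ∪ {w | w ∈ A ∧ ∃ Φ ∈ F, ∃ a ∈ Y, ∃ b ∈ Y, w = Φ a b} : Set ZFSet.{u}) ≤ μ := by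
  have h : (Y ∪ {w | w ∈ A ∧ ∃ Φ ∈ F, ∃ a ∈ Y, ∃ b ∈ Y, w = Φ a b} : Set ZFSet.{u}) ⊆
      Y ∪ range fun p : F × Y × Y => p.1.1 p.2.1.1 p.2.2.1 := by
    rintro w (hw | ⟨-, Φ, hΦ, a, ha, b, hb, rfl⟩)
    · exact Or.inl hw
    · exact Or.inr ⟨(⟨Φ, hΦ⟩, ⟨a, ha⟩, ⟨b, hb⟩), rfl⟩
  refine (mk_le_mk_of_subset h).trans ((mk_union_le _ _).trans (add_le_of_le hμ hY ?_))
  refine mk_range_le.trans ?_
  rw [mk_prod, mk_prod]
  simp only [lift_id]
  calc #F * (#Y * #Y) ≤ μ * (μ * μ) := mul_le_mul' hF (mul_le_mul' hY hY)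
    _ = μ := by rw [mul_eq_self hμ, mul_eq_self hμ]

theorem isClubIn_closed {μ : Cardinal.{u + 1}} (hμ : ℵ₀ ≤ μ)
    (F : Set (ZFSet.{u} → ZFSet.{u} → ZFSet.{u})) (hF : #F ≤ μ) (A : Set ZFSet.{u}) :
    IsClubIn (succ μ) A {Y | Y ⊆ A ∧ #Y < succ μ ∧ Closed F A Y} := by
  refine ⟨fun x hx => ⟨hx.1, hx.2.1⟩, ?_, ?_⟩
  · intro x hxA hx
    let T : Set ZFSet.{u} → Set ZFSet.{u} := fun Y =>
      Y ∪ {w | w ∈ A ∧ ∃ Φ ∈ F, ∃ a ∈ Y, ∃ b ∈ Y, w = Φ a b}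
    obtain ⟨it, h0, hsucc⟩ : ∃ it : ℕ → Set ZFSet.{u}, it 0 = x ∧ ∀ n, it (n + 1) = T (it n) :=
      ⟨fun n => T^[n] x, rfl, fun n => Function.iterate_succ_apply' _ _ _⟩
    have hmono : Monotone it := monotone_nat_of_le_succ fun n => by
      rw [hsucc]
      exact subset_union_left
    have hcard : ∀ n, #(it n) ≤ μ := by
      intro n
      induction n with
      | zero =>
        rw [h0]
        exact lt_succ_iff.1 hx
      | succ n ih =>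
        rw [hsucc]
        exact mk_step_le hμ F hF A _ ih
    have hsub : ∀ n, it n ⊆ A := by
      intro n
      induction n with
      | zero =>
        rw [h0]
        exact hxA
      | succ n ih =>
        rw [hsucc]
        rintro w (hw | hw)
        · exact ih hw
        · exact hw.1
    refine ⟨⋃ n, it n, ⟨iUnion_subset hsub, ?_, ?_⟩, h0 ▸ subset_iUnion it 0⟩
    · rw [lt_succ_iff]
      have h1 : #(⋃ n : ULift.{u + 1} ℕ, it n.down : Set ZFSet.{u}) ≤ μ := by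
        refine (mk_iUnion_le _).trans ?_
        have h3 : #(ULift.{u + 1} ℕ) ≤ μ := by
          rw [mk_uLift, mk_nat, lift_aleph0]
          exact hμ
        have h4 : (⨆ n : ULift.{u + 1} ℕ, #(it n.down)) ≤ μ :=
          ciSup_le' fun n : ULift.{u + 1} ℕ => hcard n.down
        exact (mul_le_mul' h3 h4).trans (mul_eq_self hμ).le
      have h2 : (⋃ n, it n) = ⋃ n : ULift.{u + 1} ℕ, it n.down := by
        ext w
        simp only [mem_iUnion]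
        exact ⟨fun ⟨n, hn⟩ => ⟨⟨n⟩, hn⟩, fun ⟨n, hn⟩ => ⟨n.down, hn⟩⟩
      rwa [h2]
    · intro Φ hΦ a ha b hb hab
      obtain ⟨n, hn⟩ := mem_iUnion.1 ha
      obtain ⟨m, hm⟩ := mem_iUnion.1 hb
      refine mem_iUnion.2 ⟨max n m + 1, ?_⟩
      rw [hsucc]
      exact Or.inr ⟨hab, Φ, hΦ, a, hmono (le_max_left _ _) hn, b, hmono (le_max_right _ _) hm, rfl⟩
  · intro D hD hne hchain hDc
    refine ⟨sUnion_subset fun Y hY => (hD hY).1, ?_, ?_⟩
    · rw [lt_succ_iff] at hDc ⊢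
      refine (mk_sUnion_le D).trans ?_
      exact (mul_le_mul' hDc (ciSup_le' fun Y => lt_succ_iff.1 (hD Y.2).2.1)).trans
        (mul_eq_self hμ).le
    · rintro Φ hΦ a ⟨Y, hY, haY⟩ b ⟨Y', hY', hbY⟩ hab
      rcases hchain.total hY hY' with h | h
      · exact ⟨Y', hY', (hD hY').2.2 Φ hΦ a (h haY) b hbY hab⟩
      · exact ⟨Y, hY, (hD hY).2.2 Φ hΦ a haY b (h hbY) hab⟩

/-- `GMP` provides guessing models closed under any `κ⁺` given functions. -/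
theorem exists_model {κ : Cardinal.{u}} (hκ : κ.IsRegular) (hG : GMP κ) {θ : Cardinal.{u}}
    (hθ : θ.IsRegular) (hθκ : succ (succ κ) ≤ θ)
    (F : Set (ZFSet.{u} → ZFSet.{u} → ZFSet.{u})) (hF : #F ≤ lift.{u + 1} (succ κ)) :
    ∃ M : Set ZFSet.{u}, M ⊆ HSet θ ∧ Closed F (HSet θ) M ∧ #M = lift.{u + 1} (succ κ) ∧
      IsGuessing κ M ∧ ClosedUnderSeq κ M := by
  have hμ : ℵ₀ ≤ lift.{u + 1} (succ κ) := by
    rw [← lift_aleph0.{u + 1, u}, lift_le]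
    exact hκ.aleph0_le.trans (le_succ _)
  have hclub := isClubIn_closed hμ F hF (HSet θ)
  rw [← lift_succ] at hclub
  obtain ⟨M, ⟨-, hM1, hM2, hM3⟩, hM4⟩ := hG θ hθ hθκ _ hclub
  exact ⟨M, hM4.1, hM4.2.2, hM1, hM2, hM3⟩

end Pool.Agent.Helper65.TPPart1
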