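import Mathlib
import Pool.Agent.Helper65.TPHSet

/-!
# Codes for ordinals and nodes, and covering of `κ`-sized sets inside guessing models
-/

set_option autoImplicit false
set_option linter.unusedSectionVars false

open Cardinal Order Set

universe u

namespace Pool.Agent.Helper65.TPPart1

open Pool.Agent.Helper65.TPDefs

/-! ### Codes -/

/-- The von Neumann ordinal of a point of `o.ToType`. -/
noncomputable def code {o : Ordinal.{u}} (α : o.ToType) : ZFSet.{u} :=
  (α.toOrd : Ordinal.{u}).toZFSet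

theorem code_injective {o : Ordinal.{u}} : Function.Injective (code (o := o)) := by
  intro α β h
  have h1 := Ordinal.toZFSet_injective h
  exact (Ordinal.ToType.mk (o := o)).symm.injective (Subtype.ext h1)

theorem mem_code_iff {o : Ordinal.{u}} {α : o.ToType} {y : ZFSet.{u}} :
    y ∈ code α ↔ ∃ β < α, code β = y := by
  unfold code
  rw [Ordinal.mem_toZFSet_iff]
  constructor
  · rintro ⟨a, ha, rfl⟩
    have hao : a < o := ha.trans (α.toOrd).2
    refine ⟨Ordinal.ToType.mk ⟨a, hao⟩, ?_, ?_⟩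
    · rw [← (Ordinal.ToType.mk (o := o)).symm.lt_iff_lt, OrderIso.symm_apply_apply]
      exact ha
    · unfold Ordinal.ToType.toOrd
      rw [OrderIso.symm_apply_apply]
  · rintro ⟨β, hβ, rfl⟩
    exact ⟨_, (Ordinal.ToType.mk (o := o)).symm.strictMono hβ, rfl⟩

theorem card_code_lt {c : Cardinal.{u}} (α : c.ord.ToType) : (code α).card < c := by
  unfold code
  rw [Ordinal.card_toZFSet]
  exact lt_ord.1 (α.toOrd).2

/-- The code of a node. -/
noncomputable def codeS {κ : Cardinal.{u}} (s : Node κ) : ZFSet.{u} :=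
  ZFSet.pair (code s.1) (code s.2)

theorem codeS_injective {κ : Cardinal.{u}} : Function.Injective (codeS (κ := κ)) := by
  rintro ⟨a, b⟩ ⟨c, d⟩ h
  obtain ⟨h1, h2⟩ := ZFSet.pair_injective h
  rw [Prod.mk.injEq]
  exact ⟨code_injective h1, code_injective h2⟩

/-! ### Small unions -/

/-- The union of the members of `a` of size `< κ`. -/
noncomputable def smallUnion (κ : Cardinal.{u}) (a : ZFSet.{u}) : ZFSet.{u} :=
  ZFSet.sUnion (a.sep fun y => y.card < κ)

theorem mem_smallUnion {κ : Cardinal.{u}} {a y : ZFSet.{u}} :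
    y ∈ smallUnion κ a ↔ ∃ w ∈ a, w.card < κ ∧ y ∈ w := by
  unfold smallUnion
  rw [ZFSet.mem_sUnion]
  constructor
  · rintro ⟨w, hw, hy⟩
    rw [ZFSet.mem_sep] at hw
    exact ⟨w, hw.1, hw.2, hy⟩
  · rintro ⟨w, hw, hc, hy⟩
    exact ⟨w, ZFSet.mem_sep.2 ⟨hw, hc⟩, hy⟩

theorem card_smallUnion_le {κ : Cardinal.{u}} (hκ : ℵ₀ ≤ κ) {a : ZFSet.{u}} (ha : a.card ≤ κ) :
    (smallUnion κ a).card ≤ κ := by
  rw [← lift_le.{u + 1}, ← ZFSet.cardinalMk_coe_sort]
  have h0 : ℵ₀ ≤ lift.{u + 1} κ := by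
    rw [← lift_aleph0.{u + 1, u}, lift_le]
    exact hκ
  have h1 : (smallUnion κ a : Set ZFSet.{u}) =
      ⋃₀ (SetLike.coe '' ((a.sep fun y => y.card < κ : ZFSet.{u}) : Set ZFSet.{u})) :=
    ZFSet.coe_sUnion _
  have h2 : #(smallUnion κ a : Set ZFSet.{u}) ≤ lift.{u + 1} κ := by
    rw [h1]
    refine (mk_sUnion_le _).trans ?_
    refine (mul_le_mul' (b := lift.{u + 1} κ) (d := lift.{u + 1} κ) ?_ (ciSup_le' ?_)).trans
      (mul_eq_self h0).le
    · refine mk_image_le.trans ?_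
      have : #((a.sep fun y => y.card < κ : ZFSet.{u}) : Set ZFSet.{u}) =
          lift.{u + 1} ((a.sep fun y => y.card < κ : ZFSet.{u})).card :=
        ZFSet.cardinalMk_coe_sort
      rw [this, lift_le]
      exact (ZFSet.card_mono ZFSet.sep_subset).trans ha
    · rintro ⟨_, w, hw, rfl⟩
      have hw' : w.card < κ := (ZFSet.mem_sep.1 hw).2
      have : #(w : Set ZFSet.{u}) = lift.{u + 1} w.card := ZFSet.cardinalMk_coe_sort
      change #(w : Set ZFSet.{u}) ≤ _
      rw [this, lift_le]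
      exact hw'.le
  exact h2

/-- What we use about a model. -/
structure GoodModel (κ θ : Cardinal.{u}) (M : Set ZFSet.{u}) : Prop where
  sub : M ⊆ HSet θ
  guess : IsGuessing κ M
  enum : ∀ a ∈ M, a.card ≤ succ κ → ∀ y ∈ a, y ∈ M
  big : ∀ a ∈ M, succ κ ≤ a.card →
    ∃ f : (succ κ).ord.ToType → ZFSet.{u}, Function.Injective f ∧ ∀ i, f i ∈ a ∧ f i ∈ M
  sunion : ∀ a ∈ M, smallUnion κ a ∈ HSet θ → smallUnion κ a ∈ M
  small : ∀ t : ZFSet.{u}, t.card < κ → (∀ y ∈ t, y ∈ M) → t ∈ M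

theorem card_range_le {I : Type u} (f : I → ZFSet.{u}) : (ZFSet.range f).card ≤ #I := by
  have := ZFSet.lift_card_range_le (f := f)
  simpa using this

theorem cover {κ θ : Cardinal.{u}} (hκ : κ.IsRegular) (hκθ : κ < θ) {M : Set ZFSet.{u}}
    (hM : GoodModel κ θ M) {z : ZFSet.{u}} (hz : z.powerset ∈ M) (x : κ.ord.ToType → ZFSet.{u})
    (hx : ∀ m, x m ∈ M ∧ x m ∈ z) : ∃ b ∈ M, b.card ≤ κ ∧ ∀ m, x m ∈ b := by
  have hno : NoMaxOrder κ.ord.ToType := by
    have h1 : cof κ.ord.ToType = κ := by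
      rw [Ordinal.cof_toType, hκ.cof_ord]
    have hne : Nonempty κ.ord.ToType := by
      rw [← cof_ne_zero_iff, h1]
      exact hκ.pos.ne'
    have : NoTopOrder κ.ord.ToType := one_lt_cof_iff.1 (by
      rw [h1]
      exact one_lt_aleph0.trans_le hκ.aleph0_le)
    exact NoTopOrder.to_noMaxOrder _
  -- initial pieces
  let s : κ.ord.ToType → ZFSet.{u} := fun n => ZFSet.range fun m : Iio n => x m.1
  have hscard : ∀ n, (s n).card < κ := by
    intro n
    refine (card_range_le _).trans_lt ?_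
    have := mk_Iio_lt n (by simp)
    simpa using this
  have hsM : ∀ n, s n ∈ M := by
    intro n
    refine hM.small _ (hscard n) ?_
    intro y hy
    obtain ⟨m, rfl⟩ := ZFSet.mem_range.1 hy
    exact (hx _).1
  have hsz : ∀ n, s n ⊆ z := by
    intro n y hy
    obtain ⟨m, rfl⟩ := ZFSet.mem_range.1 hy
    exact (hx _).2
  -- it suffices to catch unboundedly many pieces
  suffices hsuff : ∃ a ∈ M, a.card ≤ κ ∧ ∀ m, ∃ n, m < n ∧ s n ∈ a by
    obtain ⟨a, haM, hac, ha⟩ := hsuff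
    have hb : (smallUnion κ a).card ≤ κ := card_smallUnion_le hκ.aleph0_le hac
    refine ⟨smallUnion κ a, ?_, hb, ?_⟩
    · refine hM.sunion a haM (mem_HSet_iff.2 ⟨hb.trans_lt hκθ, ?_⟩)
      intro y hy
      obtain ⟨w, hw, -, hyw⟩ := mem_smallUnion.1 hy
      exact HSet_mem (HSet_mem (hM.sub haM) hw) hyw
    · intro m
      obtain ⟨n, hmn, hn⟩ := ha m
      exact mem_smallUnion.2 ⟨s n, hn, hscard n, ZFSet.mem_range.2 ⟨⟨m, hmn⟩, rfl⟩⟩
  by_contra hcon
  push Not at hcon
  set d : ZFSet.{u} := ZFSet.range s with hd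
  have hdz : d ⊆ z.powerset := by
    intro y hy
    obtain ⟨n, rfl⟩ := ZFSet.mem_range.1 hy
    exact ZFSet.mem_powerset.2 (hsz n)
  have happ : ∀ a ∈ M, a.card ≤ κ → d ∩ a ∈ M := by
    intro a haM hac
    obtain ⟨m, hm⟩ := hcon a haM hac
    have hsub : d ∩ a ⊆ ZFSet.range fun n : Iic m => s n.1 := by
      intro y hy
      obtain ⟨hyd, hya⟩ := ZFSet.mem_inter.1 hy
      obtain ⟨n, rfl⟩ := ZFSet.mem_range.1 hyd
      refine ZFSet.mem_range.2 ⟨⟨n, ?_⟩, rfl⟩
      by_contra hn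
      exact hm n (not_le.1 hn) hya
    refine hM.small _ ?_ ?_
    · refine (ZFSet.card_mono hsub).trans_lt ((card_range_le _).trans_lt ?_)
      obtain ⟨m', hm'⟩ := exists_gt m
      have h1 : #(Iic m) ≤ #(Iio m') := mk_le_mk_of_subset fun y hy => lt_of_le_of_lt hy hm'
      have := mk_Iio_lt m' (by simp)
      refine h1.trans_lt ?_
      simpa using this
    · intro y hy
      obtain ⟨hyd, hya⟩ := ZFSet.mem_inter.1 hy
      obtain ⟨n, rfl⟩ := ZFSet.mem_range.1 hyd
      exact hsM n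
  obtain ⟨e, heM, he⟩ := hM.guess _ hz d hdz happ
  have hdc : d.card ≤ κ := by
    refine (card_range_le _).trans ?_
    simp
  have hec : e.card ≤ κ := by
    by_contra hlt
    push Not at hlt
    obtain ⟨f, hf, hfe⟩ := hM.big e heM (succ_le_of_lt hlt)
    have h1 : ∀ i, f i ∈ d := fun i => (he _ (hfe i).2).1 (hfe i).1
    have h2 : lift.{u + 1} #((succ κ).ord.ToType) ≤ #d := by
      have := mk_le_of_injective (α := ULift.{u + 1} (succ κ).ord.ToType) (β := d)
        (f := fun i => ⟨f i.down, h1 i.down⟩) (fun i j hij => by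
          have := hf (Subtype.ext_iff.1 hij)
          exact ULift.ext _ _ this)
      simpa using this
    rw [ZFSet.cardinalMk_coe_sort, lift_le, mk_ord_toType] at h2
    exact (h2.trans hdc).not_gt (lt_succ κ)
  have hde : ∀ n, s n ∈ e := fun n => (he _ (hsM n)).2 (ZFSet.mem_range.2 ⟨n, rfl⟩)
  obtain ⟨m, hm⟩ := hcon e heM hec
  obtain ⟨n, hn⟩ := exists_gt m
  exact hm n hn (hde n)

end Pool.Agent.Helper65.TPPart1
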