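import Mathlib
import Pool.Agent.Helper65.TPCover

/-!
# The coverage lemma: `GMP` and systems of partial orders on `κ⁺⁺ × κ⁺`
-/

set_option autoImplicit false
set_option linter.unusedSectionVars false

open Cardinal Order Set

universe u

namespace Pool.Agent.Helper65.TPPart1

open Pool.Agent.Helper65.TPDefs Pool.Agent.Helper65.Club

theorem exists_range_eq {α β : Type u} (s : Set β) (hs : s.Nonempty) (h : #s ≤ #α) :
    ∃ f : α → β, range f = s := by
  obtain ⟨g⟩ := h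
  obtain ⟨b, hb⟩ := hs
  have : Nonempty s := ⟨⟨b, hb⟩⟩
  refine ⟨fun a => (Function.invFun g a : s).1, ?_⟩
  ext y
  constructor
  · rintro ⟨a, rfl⟩
    exact (Function.invFun g a : s).2
  · intro hy
    exact ⟨g ⟨y, hy⟩, by simp [Function.leftInverse_invFun g.injective ⟨y, hy⟩]⟩

theorem cover' {κ θ : Cardinal.{u}} (hκ : κ.IsRegular) (hκθ : κ < θ) {M : Set ZFSet.{u}}
    (hM : GoodModel κ θ M) {z : ZFSet.{u}} (hz : z.powerset ∈ M) {I : Type u} (hI : #I ≤ κ)
    (x : I → ZFSet.{u}) (hx : ∀ m, x m ∈ M ∧ x m ∈ z) : ∃ b ∈ M, b.card ≤ κ ∧ ∀ m, x m ∈ b := by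
  rcases isEmpty_or_nonempty I with h | h
  · refine ⟨∅, hM.small _ (by simpa using hκ.pos) (by simp), by simp, fun m => h.elim m⟩
  · obtain ⟨f, hf⟩ := exists_range_eq (α := κ.ord.ToType) (univ : Set I) univ_nonempty (by simpa)
    obtain ⟨b, hb, hbc, hxb⟩ := cover hκ hκθ hM hz (fun m => x (f m)) (fun m => hx _)
    refine ⟨b, hb, hbc, fun m => ?_⟩
    obtain ⟨a, rfl⟩ : m ∈ range f := by rw [hf]; trivial
    exact hxb a

theorem exists_enum (κ : Cardinal.{u}) : ∃ E : ZFSet.{u} → (succ κ).ord.ToType → ZFSet.{u},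
    ∀ a, (a.card ≤ succ κ → ∀ y ∈ a, ∃ i, E a i = y) ∧
      (succ κ ≤ a.card → Function.Injective (E a) ∧ ∀ i, E a i ∈ a) := by
  have key : ∀ a : ZFSet.{u}, ∃ E : (succ κ).ord.ToType → ZFSet.{u},
      (a.card ≤ succ κ → ∀ y ∈ a, ∃ i, E i = y) ∧
      (succ κ ≤ a.card → Function.Injective E ∧ ∀ i, E i ∈ a) := by
    intro a
    have hca : #a = lift.{u + 1} a.card := ZFSet.cardinalMk_coe_sort
    rcases lt_trichotomy a.card (succ κ) with h | h | h
    · rcases isEmpty_or_nonempty a with he | he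
      · refine ⟨fun _ => ∅, fun _ y hy => (he.false ⟨y, hy⟩).elim, fun h' => absurd h' h.not_ge⟩
      · have h1 : lift.{u} #a ≤ lift.{u + 1} #((succ κ).ord.ToType) := by
          rw [hca, mk_ord_toType, lift_lift]
          exact lift_le.2 h.le
        obtain ⟨g⟩ := lift_mk_le'.1 h1
        refine ⟨fun i => (Function.invFun g i : a).1, fun _ y hy => ⟨g ⟨y, hy⟩, ?_⟩,
          fun h' => absurd h' h.not_ge⟩
        simp [Function.leftInverse_invFun g.injective ⟨y, hy⟩]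
    · have h1 : lift.{u + 1} #((succ κ).ord.ToType) = lift.{u} #a := by
        rw [hca, mk_ord_toType, h]
        simp
      obtain ⟨g⟩ := lift_mk_eq'.1 h1
      refine ⟨fun i => (g i).1, fun _ y hy => ⟨g.symm ⟨y, hy⟩, by simp⟩, fun _ => ⟨?_, ?_⟩⟩
      · intro i j hij
        exact g.injective (Subtype.ext hij)
      · intro i
        exact (g i).2
    · have h1 : lift.{u + 1} #((succ κ).ord.ToType) ≤ lift.{u} #a := by
        rw [hca, mk_ord_toType]
        simpa using h.le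
      obtain ⟨g⟩ := lift_mk_le'.1 h1
      refine ⟨fun i => (g i).1, fun h' => absurd h' h.not_ge, fun _ => ⟨?_, ?_⟩⟩
      · intro i j hij
        exact g.injective (Subtype.ext hij)
      · intro i
        exact (g i).2
  choose E hE using key
  exact ⟨E, hE⟩

theorem succ_succ_regular {κ : Cardinal.{u}} (hκ : κ.IsRegular) : (succ (succ κ)).IsRegular :=
  isRegular_succ (hκ.aleph0_le.trans (le_succ _))

theorem cof_K2 {κ : Cardinal.{u}} (hκ : κ.IsRegular) :
    cof (succ (succ κ)).ord.ToType = succ (succ κ) := by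
  rw [Ordinal.cof_toType, (succ_succ_regular hκ).cof_ord]

theorem exists_bound {κ : Cardinal.{u}} (hκ : κ.IsRegular) : ∃ B : ZFSet.{u} → ZFSet.{u},
    ∀ a, a.card ≤ κ → ∃ β : (succ (succ κ)).ord.ToType, B a = code β ∧
      ∀ α, (code α ∈ a ∨ ∃ i : (succ κ).ord.ToType, codeS (κ := κ) (α, i) ∈ a) → α < β := by
  have key : ∀ a : ZFSet.{u}, ∃ w : ZFSet.{u}, a.card ≤ κ →
      ∃ β : (succ (succ κ)).ord.ToType, w = code β ∧
      ∀ α, (code α ∈ a ∨ ∃ i : (succ κ).ord.ToType, codeS (κ := κ) (α, i) ∈ a) → α < β := by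
    intro a
    by_cases ha : a.card ≤ κ
    · have hca : #a = lift.{u + 1} a.card := ZFSet.cardinalMk_coe_sort
      let T1 : Set (succ (succ κ)).ord.ToType := {α | code α ∈ a}
      let T2 : Set (succ (succ κ)).ord.ToType :=
        {α | ∃ i : (succ κ).ord.ToType, codeS (κ := κ) (α, i) ∈ a}
      have h1 : #T1 ≤ κ := by
        have h2 : lift.{u + 1} #T1 ≤ lift.{u} #a := by
          refine lift_mk_le'.2 ⟨⟨fun α => ⟨code α.1, α.2⟩, fun α β h => ?_⟩⟩
          exact Subtype.ext (code_injective (Subtype.ext_iff.1 h))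
        rw [hca, lift_lift] at h2
        have h3 : lift.{u + 1} #T1 ≤ lift.{u + 1} a.card := by simpa using h2
        exact (lift_le.1 h3).trans ha
      have h2 : #T2 ≤ κ := by
        have h2 : lift.{u + 1} #T2 ≤ lift.{u} #a := by
          refine lift_mk_le'.2 ⟨⟨fun α => ⟨_, α.2.choose_spec⟩, fun α β h => ?_⟩⟩
          have h3 := codeS_injective (Subtype.ext_iff.1 h)
          exact Subtype.ext (congrArg Prod.fst h3)
        rw [hca, lift_lift] at h2
        have h3 : lift.{u + 1} #T2 ≤ lift.{u + 1} a.card := by simpa using h2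
        exact (lift_le.1 h3).trans ha
      have h3 : #(T1 ∪ T2 : Set _) < cof (succ (succ κ)).ord.ToType := by
        rw [cof_K2 hκ]
        refine ((mk_union_le _ _).trans (add_le_of_le hκ.aleph0_le h1 h2)).trans_lt ?_
        exact (lt_succ κ).trans (lt_succ _)
      obtain ⟨β, hβ⟩ := exists_forall_lt_of_mk_lt_cof h3
      exact ⟨code β, fun _ => ⟨β, rfl, fun α hα => hβ α hα⟩⟩
    · exact ⟨∅, fun h => absurd h ha⟩
  choose B hB using key
  exact ⟨B, hB⟩

/-- The set of second coordinates of the pairs in `a`. -/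
noncomputable def snds (a : ZFSet.{u}) : ZFSet.{u} :=
  (ZFSet.sUnion (ZFSet.sUnion a)).sep fun y => ∃ x, ZFSet.pair x y ∈ a

theorem mem_snds {a y : ZFSet.{u}} : y ∈ snds a ↔ ∃ x, ZFSet.pair x y ∈ a := by
  unfold snds
  rw [ZFSet.mem_sep]
  refine ⟨fun h => h.2, fun h => ⟨?_, h⟩⟩
  obtain ⟨x, hx⟩ := h
  refine ZFSet.mem_sUnion.2 ⟨{x, y}, ZFSet.mem_sUnion.2 ⟨_, hx, ?_⟩, by simp⟩
  simp [ZFSet.pair]

theorem snds_seqCode (γ : Ordinal.{u}) (f : Iio γ → ZFSet.{u}) :
    snds (seqCode γ f) = ZFSet.range f := by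
  ext y
  rw [mem_snds, ZFSet.mem_range]
  unfold seqCode
  constructor
  · rintro ⟨x, hx⟩
    obtain ⟨ξ, hξ⟩ := ZFSet.mem_range.1 hx
    exact ⟨ξ, (ZFSet.pair_injective hξ).2⟩
  · rintro ⟨ξ, rfl⟩
    exact ⟨_, ZFSet.mem_range.2 ⟨ξ, rfl⟩⟩

/-- The nodes of level `α` singled out by the family `b`. -/
def Aset (κ : Cardinal.{u}) (b : ZFSet.{u}) (α : (succ (succ κ)).ord.ToType) :
    Set (succ κ).ord.ToType :=
  {i | ∃ e ∈ b, codeS (κ := κ) (α, i) ∈ e ∧ ∀ j, codeS (κ := κ) (α, j) ∈ e → j = i}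

theorem mk_Aset_le {κ : Cardinal.{u}} {b : ZFSet.{u}} (hb : b.card ≤ κ)
    (α : (succ (succ κ)).ord.ToType) : #(Aset κ b α) ≤ κ := by
  have hcb : #b = lift.{u + 1} b.card := ZFSet.cardinalMk_coe_sort
  have h2 : lift.{u + 1} #(Aset κ b α) ≤ lift.{u} #b := by
    refine lift_mk_le'.2 ⟨⟨fun i => ⟨i.2.choose, i.2.choose_spec.1⟩, fun i j h => ?_⟩⟩
    have h3 : i.2.choose = j.2.choose := Subtype.ext_iff.1 h
    have h4 := i.2.choose_spec.2.1
    rw [h3] at h4
    exact Subtype.ext (j.2.choose_spec.2.2 _ h4)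
  rw [hcb, lift_lift] at h2
  have h3 : lift.{u + 1} #(Aset κ b α) ≤ lift.{u + 1} b.card := by simpa using h2
  exact (lift_le.1 h3).trans hb

end Pool.Agent.Helper65.TPPart1
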