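import Mathlib
import Pool.Agent.Helper65.TPPart1

/-!
# The coverage theorem
-/

set_option autoImplicit false
set_option linter.unusedSectionVars false

open Cardinal Order Set

universe u

namespace Pool.Agent.Helper65.TPPart1

open Pool.Agent.Helper65.TPDefs Pool.Agent.Helper65.Club

/-- `a ↦ {s ∈ a | s <_n u}` -/
noncomputable def fBelow {κ : Cardinal.{u}} (R : Node κ → Node κ → Prop) (w a : ZFSet.{u}) :
    ZFSet.{u} :=
  a.sep fun y => ∃ s v : Node κ, y = codeS s ∧ w = codeS v ∧ R s v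

theorem mem_fBelow {κ : Cardinal.{u}} {R : Node κ → Node κ → Prop} {v : Node κ}
    {a y : ZFSet.{u}} : y ∈ fBelow R (codeS v) a ↔ y ∈ a ∧ ∃ s, y = codeS s ∧ R s v := by
  unfold fBelow
  rw [ZFSet.mem_sep]
  refine and_congr_right fun _ => ?_
  constructor
  · rintro ⟨s, v', h1, h2, h3⟩
    rw [codeS_injective h2]
    exact ⟨s, h1, h3⟩
  · rintro ⟨s, h1, h3⟩
    exact ⟨s, v, h1, rfl, h3⟩

/-- `code α ↦ codeS (α, i)` -/
noncomputable def fNode (κ : Cardinal.{u}) (i : (succ κ).ord.ToType) (x _a : ZFSet.{u}) :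
    ZFSet.{u} :=
  Function.extend (code (o := (succ (succ κ)).ord)) (fun α => codeS (κ := κ) (α, i))
    (fun _ => ∅) x

theorem fNode_code {κ : Cardinal.{u}} (i : (succ κ).ord.ToType)
    (α : (succ (succ κ)).ord.ToType) (a : ZFSet.{u}) :
    fNode κ i (code α) a = codeS (κ := κ) (α, i) := by
  unfold fNode
  rw [code_injective.extend_apply]

/-- `(b, code ε) ↦ code (fail b ε)` -/
noncomputable def fFail {κ : Cardinal.{u}}
    (g : ZFSet.{u} → (succ (succ κ)).ord.ToType → (succ (succ κ)).ord.ToType) (b x : ZFSet.{u}) :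
    ZFSet.{u} :=
  Function.extend (code (o := (succ (succ κ)).ord)) (fun ε => code (g b ε)) (fun _ => ∅) x

theorem fFail_code {κ : Cardinal.{u}}
    (g : ZFSet.{u} → (succ (succ κ)).ord.ToType → (succ (succ κ)).ord.ToType) (b : ZFSet.{u})
    (ε : (succ (succ κ)).ord.ToType) : fFail g b (code ε) = code (g b ε) := by
  unfold fFail
  rw [code_injective.extend_apply]

/-- The family of functions under which the model is closed. -/
noncomputable def fam {κ : Cardinal.{u}} {I : Type u} (R : I → Node κ → Node κ → Prop)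
    (E : ZFSet.{u} → (succ κ).ord.ToType → ZFSet.{u}) (B : ZFSet.{u} → ZFSet.{u})
    (g : ZFSet.{u} → (succ (succ κ)).ord.ToType → (succ (succ κ)).ord.ToType)
    (z0 z : ZFSet.{u}) : Set (ZFSet.{u} → ZFSet.{u} → ZFSet.{u}) :=
  (range fun n : I => fBelow (R n)) ∪ ((range fun i => fNode κ i) ∪
    ((range fun i => fun a _ => E a i) ∪
      {(fun a _ => B a), fFail g, (fun a _ => smallUnion κ a), (fun a _ => a ∩ z0),
        (fun a _ => snds a), (fun _ _ => z0), (fun _ _ => z.powerset)}))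

theorem mk_fam_le {κ : Cardinal.{u}} (hκ : κ.IsRegular) {I : Type u} (hI : #I ≤ κ)
    (R : I → Node κ → Node κ → Prop)
    (E : ZFSet.{u} → (succ κ).ord.ToType → ZFSet.{u}) (B : ZFSet.{u} → ZFSet.{u})
    (g : ZFSet.{u} → (succ (succ κ)).ord.ToType → (succ (succ κ)).ord.ToType)
    (z0 z : ZFSet.{u}) : #(fam R E B g z0 z) ≤ lift.{u + 1} (succ κ) := by
  have hμ : ℵ₀ ≤ lift.{u + 1} (succ κ) := by
    rw [← lift_aleph0.{u + 1, u}, lift_le]
    exact hκ.aleph0_le.trans (le_succ _)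
  have hr : ∀ {J : Type u} (f : J → ZFSet.{u} → ZFSet.{u} → ZFSet.{u}), #J ≤ succ κ →
      #(range f) ≤ lift.{u + 1} (succ κ) := by
    intro J f hJ
    have h1 : lift.{u} #(range f) ≤ lift.{u + 1} #J := mk_range_le_lift
    rw [lift_id'.{u, u + 1}] at h1
    exact h1.trans (lift_le.2 hJ)
  refine (mk_union_le _ _).trans (add_le_of_le hμ (hr _ (hI.trans (le_succ _))) ?_)
  refine (mk_union_le _ _).trans (add_le_of_le hμ (hr _ (mk_ord_toType _).le) ?_)
  refine (mk_union_le _ _).trans (add_le_of_le hμ (hr _ (mk_ord_toType _).le) ?_)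
  refine le_trans ?_ hμ
  rw [le_aleph0_iff_set_countable]
  exact (Set.toFinite _).countable

theorem goodModel_of_closed {κ θ : Cardinal.{u}} (hκθ : κ < θ)
    {M : Set ZFSet.{u}}
    {F : Set (ZFSet.{u} → ZFSet.{u} → ZFSet.{u})} (hsub : M ⊆ HSet θ) (hcl : Closed F (HSet θ) M)
    (hG : IsGuessing κ M) (hS : ClosedUnderSeq κ M)
    {E : ZFSet.{u} → (succ κ).ord.ToType → ZFSet.{u}}
    (hE : ∀ a, (a.card ≤ succ κ → ∀ y ∈ a, ∃ i, E a i = y) ∧
      (succ κ ≤ a.card → Function.Injective (E a) ∧ ∀ i, E a i ∈ a))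
    (hEF : ∀ i, (fun a _ => E a i) ∈ F) (hUF : (fun a _ => smallUnion κ a) ∈ F)
    (hsF : (fun a _ => snds a) ∈ F) : GoodModel κ θ M where
  sub := hsub
  guess := hG
  enum := by
    intro a ha hac y hy
    obtain ⟨i, rfl⟩ := (hE a).1 hac y hy
    exact hcl _ (hEF i) a ha a ha (HSet_mem (hsub ha) hy)
  big := by
    intro a ha hac
    obtain ⟨h1, h2⟩ := (hE a).2 hac
    exact ⟨E a, h1, fun i => ⟨h2 i, hcl _ (hEF i) a ha a ha (HSet_mem (hsub ha) (h2 i))⟩⟩
  sunion := by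
    intro a ha hU
    exact hcl _ hUF a ha a ha hU
  small := by
    intro t ht htM
    have hlt : t.card.ord < κ.ord := ord_lt_ord.2 ht
    have h1 : #(Iio t.card.ord) = #t := by
      rw [ZFSet.cardinalMk_coe_sort, mk_Iio_ordinal, card_ord]
    obtain ⟨e⟩ := Cardinal.eq.1 h1
    have h2 := hS _ hlt (fun ξ => (e ξ).1) (fun ξ => htM _ (e ξ).2)
    have h3 : snds (seqCode t.card.ord fun ξ => (e ξ).1) = t := by
      rw [snds_seqCode]
      ext y
      rw [ZFSet.mem_range]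
      constructor
      · rintro ⟨ξ, rfl⟩
        exact (e ξ).2
      · intro hy
        exact ⟨e.symm ⟨y, hy⟩, by simp⟩
    have h4 := hcl _ hsF _ h2 _ h2
    simp only [h3] at h4
    exact h4 (mem_HSet_iff.2 ⟨ht.trans hκθ, fun y hy => hsub (htM y hy)⟩)

theorem coverage {κ : Cardinal.{u}} (hκ : κ.IsRegular) (hG : GMP κ) {I : Type u} (hI : #I ≤ κ)
    (R : I → Node κ → Node κ → Prop) (A1 : ∀ n s t, R n s t → s.1 < t.1)
    (A2 : ∀ n s t v, R n s t → R n t v → R n s v)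
    (A3 : ∀ n s t v, R n s v → R n t v → s.1 < t.1 → R n s t)
    (A4 : ∀ n s t v, R n s v → R n t v → s.1 = t.1 → s = t)
    (Z : Set (Node κ)) (hZ : ∀ α, ∃ i, (α, i) ∈ Z) :
    ∃ (ε : (succ (succ κ)).ord.ToType) (A : (succ (succ κ)).ord.ToType → Set (succ κ).ord.ToType),
      (∀ α, #(A α) ≤ κ) ∧ ∀ δ, ∃ t ∈ Z, δ ≤ t.1 ∧
        ∀ n α, ε < α → α < δ → ∀ i, R n (α, i) t → i ∈ A α := by
  by_contra hcon
  -- the failure function
  have hfail : ∀ (b : ZFSet.{u}) (ε : (succ (succ κ)).ord.ToType),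
      ∃ δ : (succ (succ κ)).ord.ToType, b.card ≤ κ → ¬ ∃ t ∈ Z, δ ≤ t.1 ∧
        ∀ n α, ε < α → α < δ → ∀ i, R n (α, i) t → i ∈ Aset κ b α := by
    intro b ε
    by_contra h
    push Not at h
    have hb := (h ε).1
    refine hcon ⟨ε, Aset κ b, mk_Aset_le hb, fun δ => ?_⟩
    obtain ⟨t, ht, h1, h2⟩ := (h δ).2
    exact ⟨t, ht, h1, h2⟩
  choose g hg using hfail
  obtain ⟨E, hE⟩ := exists_enum κ
  obtain ⟨B, hB⟩ := exists_bound hκ
  -- the constants
  set z0 : ZFSet.{u} := ZFSet.range (codeS (κ := κ)) with hz0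
  set zo : ZFSet.{u} := ZFSet.range (code (o := (succ (succ κ)).ord)) with hzo
  set z : ZFSet.{u} := zo ∪ z0.powerset with hz
  obtain ⟨c, hc⟩ := exists_mem_HSet z.powerset
  set θ : Cardinal.{u} := succ (max (succ (succ κ)) c) with hθdef
  have hθ : θ.IsRegular := isRegular_succ
    ((hκ.aleph0_le.trans ((le_succ _).trans (le_succ _))).trans (le_max_left _ _))
  have hθκ : succ (succ κ) ≤ θ := (le_max_left _ _).trans (le_succ _)
  have hκθ : κ < θ := ((lt_succ κ).trans (lt_succ _)).trans_le hθκ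
  have hzH : z.powerset ∈ HSet θ := hc θ ((le_max_right _ _).trans (le_succ _))
  have hz0z : z0 ∈ z := ZFSet.mem_union.2 (Or.inr (ZFSet.mem_powerset.2 fun _ h => h))
  have hzz : z ∈ z.powerset := ZFSet.mem_powerset.2 fun _ h => h
  have hz1H : z ∈ HSet θ := HSet_mem hzH hzz
  have hz0H : z0 ∈ HSet θ := HSet_mem hz1H hz0z
  have hnodeH : ∀ s : Node κ, codeS s ∈ HSet θ := fun s =>
    HSet_mem hz0H (ZFSet.mem_range.2 ⟨s, rfl⟩)
  have hcodez : ∀ α : (succ (succ κ)).ord.ToType, code α ∈ z := fun α =>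
    ZFSet.mem_union.2 (Or.inl (ZFSet.mem_range.2 ⟨α, rfl⟩))
  have hcodeH : ∀ α : (succ (succ κ)).ord.ToType, code α ∈ HSet θ := fun α =>
    HSet_mem hz1H (hcodez α)
  -- the model
  obtain ⟨M, hMsub, hMcl, hMcard, hMguess, hMseq⟩ := exists_model hκ hG hθ hθκ
    (fam R E B g z0 z) (mk_fam_le hκ hI R E B g z0 z)
  have hMgood : GoodModel κ θ M := by
    refine goodModel_of_closed hκθ hMsub hMcl hMguess hMseq hE ?_ ?_ ?_
    · intro i
      exact Or.inr (Or.inr (Or.inl ⟨i, rfl⟩))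
    · exact Or.inr (Or.inr (Or.inr (by simp)))
    · exact Or.inr (Or.inr (Or.inr (by simp)))
  have hMempty : ∅ ∈ M := hMgood.small _ (by simpa using hκ.pos) (by simp)
  have hz0M : z0 ∈ M := hMcl (fun _ _ => z0) (Or.inr (Or.inr (Or.inr (by simp)))) _ hMempty _
    hMempty hz0H
  have hzM : z.powerset ∈ M := hMcl (fun _ _ => z.powerset)
    (Or.inr (Or.inr (Or.inr (by simp)))) _ hMempty _ hMempty hzH
  have hinterM : ∀ a ∈ M, a ∩ z0 ∈ M := fun a ha =>
    hMcl (fun a _ => a ∩ z0) (Or.inr (Or.inr (Or.inr (by simp)))) a ha a ha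
      (HSet_subset (hMsub ha) fun y hy => (ZFSet.mem_inter.1 hy).1)
  -- the ordinal δ
  obtain ⟨δ, hδ, hδmin⟩ := wellFounded_lt.has_min
    {α : (succ (succ κ)).ord.ToType | code α ∉ M} (by
      by_contra hne
      rw [not_nonempty_iff_eq_empty, eq_empty_iff_forall_notMem] at hne
      have h1 : ∀ α : (succ (succ κ)).ord.ToType, code α ∈ M := fun α => by
        by_contra h
        exact hne α h
      have h2 : lift.{u + 1} #((succ (succ κ)).ord.ToType) ≤ lift.{u} #M :=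
        lift_mk_le'.2 ⟨⟨fun α => ⟨code α, h1 α⟩, fun α β h =>
          code_injective (Subtype.ext_iff.1 h)⟩⟩
      rw [hMcard, mk_ord_toType, lift_lift] at h2
      have h3 : lift.{u + 1} (succ (succ κ)) ≤ lift.{u + 1} (succ κ) := h2
      exact (lift_le.1 h3).not_gt (lt_succ _))
  have hδ1 : ∀ α < δ, code α ∈ M := fun α hα => by
    by_contra h
    exact hδmin α h hα
  have hδ2 : ∀ α : (succ (succ κ)).ord.ToType, code α ∈ M → α < δ := by
    intro α hα
    rcases lt_trichotomy α δ with h | h | h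
    · exact h
    · subst h
      exact absurd hα hδ
    · refine absurd (hMgood.enum _ hα (lt_succ_iff.1 (card_code_lt α)) (code δ) ?_) hδ
      exact mem_code_iff.2 ⟨δ, h, rfl⟩
  have hnodeM : ∀ s : Node κ, s.1 < δ → codeS s ∈ M := by
    rintro ⟨α, i⟩ hα
    have := hMcl (fNode κ i) (Or.inr (Or.inl ⟨i, rfl⟩)) _ (hδ1 α hα) _ hMempty
    rw [fNode_code] at this
    exact this (hnodeH _)
  have hboundM : ∀ a ∈ M, a.card ≤ κ → ∃ β < δ, ∀ α,
      (code α ∈ a ∨ ∃ i : (succ κ).ord.ToType, codeS (κ := κ) (α, i) ∈ a) → α < β := by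
    intro a ha hac
    obtain ⟨β, h1, h2⟩ := hB a hac
    have := hMcl (fun a _ => B a) (Or.inr (Or.inr (Or.inr (by simp)))) a ha a ha
    simp only [h1] at this
    exact ⟨β, hδ2 β (this (hcodeH β)), h2⟩
  have hhigh : HighCof κ δ := by
    intro s hs hsc
    rcases s.eq_empty_or_nonempty with rfl | hne
    · obtain ⟨β, hβ, -⟩ := hboundM ∅ hMempty (by simp)
      exact ⟨β, hβ, by simp⟩
    · obtain ⟨x, hx⟩ := exists_range_eq (α := κ.ord.ToType) s hne (by simpa using hsc)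
      have hxδ : ∀ m, x m < δ := fun m => hs (hx ▸ mem_range_self m)
      obtain ⟨b, hbM, hbc, hb⟩ := cover hκ hκθ hMgood hzM (fun m => code (x m))
        (fun m => ⟨hδ1 _ (hxδ m), hcodez _⟩)
      obtain ⟨β, hβ, hβ2⟩ := hboundM b hbM hbc
      refine ⟨β, hβ, fun y hy => ?_⟩
      rw [← hx] at hy
      obtain ⟨m, rfl⟩ := hy
      exact hβ2 _ (Or.inl (hb m))
  obtain ⟨i0, hi0⟩ := hZ δ
  set t0 : Node κ := (δ, i0) with ht0
  -- guessing the sets of predecessors
  have hguess : ∀ n, ∃ e : ZFSet.{u}, (e ∈ M ∧ e ∈ z) ∧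
      ((∀ β < δ, ∃ s, R n s t0 ∧ β < s.1) → ∀ s : Node κ, s.1 < δ → (codeS s ∈ e ↔ R n s t0)) := by
    intro n
    by_cases hcof : ∀ β < δ, ∃ s, R n s t0 ∧ β < s.1
    · let d : ZFSet.{u} := fBelow (R n) (codeS t0) z0
      have hd : d ⊆ z0 := fun y hy => (mem_fBelow.1 hy).1
      have happ : ∀ a ∈ M, a.card ≤ κ → d ∩ a ∈ M := by
        intro a ha hac
        obtain ⟨β, hβ, hβa⟩ := hboundM a ha hac
        obtain ⟨s0, hs0, hβs0⟩ := hcof β hβ
        have hs0δ : s0.1 < δ := A1 n s0 t0 hs0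
        have heq : d ∩ a = fBelow (R n) (codeS s0) a := by
          ext y
          rw [ZFSet.mem_inter, mem_fBelow, mem_fBelow]
          constructor
          · rintro ⟨⟨-, s, rfl, hs⟩, hya⟩
            have hsβ : s.1 < β := hβa _ (Or.inr ⟨s.2, hya⟩)
            exact ⟨hya, s, rfl, A3 n s s0 t0 hs hs0 (hsβ.trans hβs0)⟩
          · rintro ⟨hya, s, rfl, hs⟩
            exact ⟨⟨ZFSet.mem_range.2 ⟨s, rfl⟩, s, rfl, A2 n s s0 t0 hs hs0⟩, hya⟩
        rw [heq]
        refine hMcl (fBelow (R n)) (Or.inl ⟨n, rfl⟩) _ (hnodeM s0 hs0δ) a ha ?_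
        exact HSet_subset (hMsub ha) fun y hy => (mem_fBelow.1 hy).1
      obtain ⟨e, heM, he⟩ := hMguess z0 hz0M d hd happ
      refine ⟨e ∩ z0, ⟨hinterM e heM, ?_⟩, fun _ s hs => ?_⟩
      · exact ZFSet.mem_union.2 (Or.inr (ZFSet.mem_powerset.2 fun y hy =>
          (ZFSet.mem_inter.1 hy).2))
      · rw [ZFSet.mem_inter, he _ (hnodeM s hs), mem_fBelow]
        constructor
        · rintro ⟨⟨-, s', hs', h⟩, -⟩
          rw [codeS_injective hs']
          exact h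
        · intro h
          exact ⟨⟨ZFSet.mem_range.2 ⟨s, rfl⟩, s, rfl, h⟩, ZFSet.mem_range.2 ⟨s, rfl⟩⟩
    · refine ⟨∅, ⟨hMempty, ?_⟩, fun h => absurd h hcof⟩
      exact ZFSet.mem_union.2 (Or.inr (ZFSet.mem_powerset.2 (by simp)))
  choose e he1 he2 using hguess
  obtain ⟨b, hbM, hbc, hb⟩ := cover' hκ hκθ hMgood hzM hI e he1
  have hε : ∀ n, ∃ β < δ, (¬ (∀ β < δ, ∃ s, R n s t0 ∧ β < s.1)) → ∀ s, R n s t0 → s.1 ≤ β := by
    intro n
    by_cases hcof : ∀ β < δ, ∃ s, R n s t0 ∧ β < s.1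
    · obtain ⟨β, hβ, -⟩ := hhigh ∅ (by simp) (by simp)
      exact ⟨β, hβ, fun h => absurd hcof h⟩
    · have h := hcof
      push Not at h
      obtain ⟨β, hβ, h'⟩ := h
      exact ⟨β, hβ, fun _ => h'⟩
  choose βn hβn1 hβn2 using hε
  obtain ⟨ε, hεδ, hε⟩ := hhigh (range βn) (by rintro _ ⟨n, rfl⟩; exact hβn1 n)
    (mk_range_le.trans hI)
  -- reflect
  have hfM : code (g b ε) ∈ M := by
    have := hMcl (fFail g) (Or.inr (Or.inr (Or.inr (by simp)))) b hbM _ (hδ1 ε hεδ)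
    rw [fFail_code] at this
    exact this (hcodeH _)
  refine hg b ε hbc ⟨t0, hi0, (hδ2 _ hfM).le, ?_⟩
  intro n α hεα hα i hi
  have hαδ : α < δ := hα.trans (hδ2 _ hfM)
  by_cases hcof : ∀ β < δ, ∃ s, R n s t0 ∧ β < s.1
  · refine ⟨e n, hb n, (he2 n hcof (α, i) hαδ).2 hi, fun j hj => ?_⟩
    have hj' := (he2 n hcof (α, j) hαδ).1 hj
    have := A4 n _ _ _ hj' hi rfl
    exact congrArg Prod.snd this
  · exact absurd ((hβn2 n hcof _ hi).trans_lt ((hε _ (mem_range_self n)).trans hεα)) (lt_irrefl _)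

end Pool.Agent.Helper65.TPPart1
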