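import Mathlib
import Pool.Agent.Helper65.Club

/-!
# Centered forcing and trees: the abstract branch construction
-/

set_option autoImplicit false
set_option linter.unusedSectionVars false

open Cardinal Order Set

universe u

namespace Pool.Agent.Helper65.TPPart2

open Pool.Agent.Helper65.Club

variable {K J I P : Type u} [LinearOrder K] [WellFoundedLT K] [Preorder P]

/-- The facts about a forced tree order that the argument uses: `X s q` says that `q` forces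
`s` to be a node, and `L s t q` that `q` forces `s` to lie below `t`. -/
structure TreeFacts (X : K × J → P → Prop) (L : K × J → K × J → P → Prop) : Prop where
  X_mono : ∀ s p q, q ≤ p → X s p → X s q
  X_dense : ∀ s p, (∀ q ≤ p, ∃ r ≤ q, X s r) → X s p
  L_mono : ∀ s t p q, q ≤ p → L s t p → L s t q
  L_dense : ∀ s t p, (∀ q ≤ p, ∃ r ≤ q, L s t r) → L s t p
  lt_of_L : ∀ s t p, L s t p → s.1 < t.1
  left_of_L : ∀ s t p, L s t p → X s p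
  right_of_L : ∀ s t p, L s t p → X t p
  trans : ∀ s t v p, L s t p → L t v p → L s v p
  exists_pred : ∀ t p, X t p → ∀ α < t.1, ∃ q ≤ p, ∃ i, L (α, i) t q
  unique_pred : ∀ t α i j p, L (α, i) t p → L (α, j) t p → i = j
  exists_node : ∀ (p : P) (α : K), ∃ q ≤ p, ∃ i, X (α, i) q

namespace TreeFacts

variable {X : K × J → P → Prop} {L : K × J → K × J → P → Prop} (F : TreeFacts X L)
include F

theorem linear {s t v : K × J} {p : P} (hs : L s v p) (ht : L t v p) (hst : s.1 < t.1) :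
    L s t p := by
  refine F.L_dense _ _ _ fun q hq => ?_
  have hs' := F.L_mono _ _ _ _ hq hs
  have ht' := F.L_mono _ _ _ _ hq ht
  obtain ⟨r, hr, i, hi⟩ := F.exists_pred t q (F.left_of_L _ _ _ ht') s.1 hst
  refine ⟨r, hr, ?_⟩
  have h1 := F.trans _ _ _ _ hi (F.L_mono _ _ _ _ hr ht')
  have h2 := F.L_mono _ _ _ _ hr hs'
  have : i = s.2 := F.unique_pred v s.1 i s.2 r h1 h2
  subst this
  exact hi

theorem eq_of_level {s t v : K × J} {p : P} (hs : L s v p) (ht : L t v p) (hst : s.1 = t.1) :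
    s = t := by
  obtain ⟨a, i⟩ := s
  obtain ⟨b, j⟩ := t
  simp only at hst
  subst hst
  rw [F.unique_pred v a i j p hs ht]

end TreeFacts

/-- The relation `s < t is forced by a condition in the n-th piece`. -/
def ltN (L : K × J → K × J → P → Prop) (Q : I → Set P) (n : I) (s t : K × J) : Prop :=
  ∃ q ∈ Q n, L s t q

/-- the main coverage hypothesis -/
def Coverage (X : K × J → P → Prop) (L : K × J → K × J → P → Prop) (Q : I → Set P)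
    (ν : Cardinal.{u}) : Prop :=
  ∃ (ε : K) (A : K → Set J), (∀ α, #(A α) ≤ ν) ∧
    ∀ δ : K, ∃ t : K × J, (∃ q, X t q) ∧ δ ≤ t.1 ∧
      ∀ (n : I) (α : K), ε < α → α < δ → ∀ i, ltN L Q n (α, i) t → i ∈ A α

theorem exists_branch {ν : Cardinal.{u}} (hK : ℵ₀ < cof K) (hinit : ∀ a : K, #(Iio a) < cof K)
    (hν : ℵ₀ ≤ ν) (hνK : ν < cof K) (hI : #I ≤ ν) (hJ : #J < cof K)
    (hst : IsStationary {β : K | HighCof ν β})
    (Q : I → Set P) (hdir : ∀ i, ∀ p ∈ Q i, ∀ q ∈ Q i, ∃ r ∈ Q i, r ≤ p ∧ r ≤ q)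
    (hcov : ∀ p, ∃ i, p ∈ Q i) [Nonempty P]
    {X : K × J → P → Prop} {L : K × J → K × J → P → Prop} (F : TreeFacts X L)
    (hC : Coverage X L Q ν) :
    ∃ (q : P) (b : Set ((K × J) × P)),
      (∀ s c, (s, c) ∈ b → X s c) ∧
      (∀ s c t c', (s, c) ∈ b → (t, c') ∈ b → ∀ r ≤ c, r ≤ c' → s = t ∨ L s t r ∨ L t s r) ∧
      (∀ α, ∀ q' ≤ q, ∃ r ≤ q', ∃ i c, ((α, i), c) ∈ b ∧ r ≤ c) := by
  obtain ⟨ε, A, hA, hε⟩ := hC
  have hneK : Nonempty K := ⟨ε⟩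
  have hno : NoMaxOrder K := by
    have : NoTopOrder K := one_lt_cof_iff.1 (one_lt_aleph0.trans hK)
    exact NoTopOrder.to_noMaxOrder K
  have hneI : Nonempty I := by
    obtain ⟨p⟩ := ‹Nonempty P›
    exact ⟨(hcov p).choose⟩
  have hneJ : Nonempty J := by
    obtain ⟨p⟩ := ‹Nonempty P›
    obtain ⟨-, -, i, -⟩ := F.exists_node p ε
    exact ⟨i⟩
  -- step (C)
  have hvr : ∀ β : K, ε < β → ∃ (j : J) (r : P), X (β, j) r ∧ j ∈ A β ∧
      ∀ q ≤ r, ∀ α, ε < α → α < β → ∀ i, L (α, i) (β, j) q → i ∈ A α := by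
    intro β hβ
    obtain ⟨β', hβ'⟩ := exists_gt β
    obtain ⟨t, ⟨q, hq⟩, hδt, hcovt⟩ := hε β'
    obtain ⟨r, hr, j, hj⟩ := F.exists_pred t q hq β (hβ'.trans_le hδt)
    refine ⟨j, r, F.left_of_L _ _ _ hj, ?_, ?_⟩
    · obtain ⟨n, hn⟩ := hcov r
      exact hcovt n β hβ hβ' j ⟨r, hn, hj⟩
    · intro q hq α hα hαβ i hi
      obtain ⟨n, hn⟩ := hcov q
      refine hcovt n α hα (hαβ.trans hβ') i ⟨q, hn, ?_⟩
      exact F.trans _ _ _ _ hi (F.L_mono _ _ _ _ hq hj)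
  choose! vj r hX hvA hcovA using hvr
  -- common predecessors
  let NoCommon : K → K → J → J → P → Prop := fun β ξ j j' q =>
    ∀ q' ≤ q, ∀ k, ¬ (L (ξ, k) (β, j) q' ∧ L (ξ, k) (β, j') q')
  have hxi : ∀ β : K, ∃ f : I → J → J → K, (HighCof ν β → ∀ n j j', f n j j' < β) ∧
      ∀ n j j', (∃ ξ < β, ∃ q ∈ Q n, NoCommon β ξ j j' q) →
        ∃ q ∈ Q n, NoCommon β (f n j j') j j' q := by
    intro β
    have : ∀ n j j', ∃ ξ : K, (HighCof ν β → ξ < β) ∧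
        ((∃ ξ < β, ∃ q ∈ Q n, NoCommon β ξ j j' q) → ∃ q ∈ Q n, NoCommon β ξ j j' q) := by
      intro n j j'
      by_cases h : ∃ ξ < β, ∃ q ∈ Q n, NoCommon β ξ j j' q
      · obtain ⟨ξ, hξ, h'⟩ := h
        exact ⟨ξ, fun _ => hξ, fun _ => h'⟩
      · by_cases h2 : HighCof ν β
        · obtain ⟨ξ, hξ, -⟩ := h2 ∅ (empty_subset _) (by simp)
          exact ⟨ξ, fun _ => hξ, fun h' => absurd h' h⟩
        · exact ⟨β, fun h' => absurd h' h2, fun h' => absurd h' h⟩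
    choose f hf1 hf2 using this
    exact ⟨f, fun h n j j' => hf1 n j j' h, hf2⟩
  choose f hf1 hf2 using hxi
  -- step (D): pressing down
  have hS0 : IsStationary {β : K | HighCof ν β ∧ ε < β} := by
    intro C hC
    obtain ⟨x, hx1, hx2⟩ := hst (hC.inter hK.ne' (isClub_Ioi ε))
    exact ⟨x, ⟨hx1, hx2.2⟩, hx2.1⟩
  have hg : ∀ β : K, ∃ γ : K, HighCof ν β ∧ ε < β → (γ < β ∧ ε < γ ∧
      ∀ n, ∀ j ∈ A β, ∀ j' ∈ A β, f β n j j' < γ) := by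
    intro β
    by_cases h : HighCof ν β ∧ ε < β
    · obtain ⟨h, hεβ⟩ := h
      let T : Set K := insert ε (range fun x : I × A β × A β => f β x.1 x.2.1.1 x.2.2.1)
      have hTβ : T ⊆ Iio β := by
        intro x hx
        rcases hx with rfl | ⟨y, rfl⟩
        · exact hεβ
        · exact hf1 β h _ _ _
      have hTν : #T ≤ ν := by
        refine mk_insert_le.trans ?_
        refine add_le_of_le hν ?_ (one_le_aleph0.trans hν)
        refine mk_range_le.trans ?_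
        rw [mk_prod, mk_prod]
        simp only [lift_id]
        calc #I * (#(A β) * #(A β)) ≤ ν * (ν * ν) :=
              mul_le_mul' hI (mul_le_mul' (hA β) (hA β))
          _ = ν := by rw [mul_eq_self hν, mul_eq_self hν]
      obtain ⟨γ, hγβ, hγ⟩ := h T hTβ hTν
      refine ⟨γ, fun _ => ⟨hγβ, hγ _ (mem_insert _ _), ?_⟩⟩
      intro n j hj j' hj'
      exact hγ _ (mem_insert_of_mem _ ⟨(n, ⟨j, hj⟩, ⟨j', hj'⟩), rfl⟩)
    · exact ⟨β, fun h' => absurd h' h⟩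
  choose g hg using hg
  obtain ⟨γ, hS1⟩ := fodor hK hinit hS0 g (fun a ha => (hg a ha).1)
  -- choose the conditions
  have hq : ∀ β : K, ∃ (q : P) (n : I) (i : J), (ε < β ∧ γ < β) →
      q ≤ r β ∧ q ∈ Q n ∧ L (γ, i) (β, vj β) q := by
    intro β
    by_cases h : ε < β ∧ γ < β
    · obtain ⟨q, hq, i, hi⟩ := F.exists_pred (β, vj β) (r β) (hX β h.1) γ h.2
      obtain ⟨n, hn⟩ := hcov q
      exact ⟨q, n, i, fun _ => ⟨hq, hn, hi⟩⟩
    · exact ⟨r β, Classical.arbitrary I, vj β, fun h' => absurd h' h⟩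
  choose q nn ii hqq using hq
  have hS2 : ∃ x : I × J, IsStationary {β ∈ {β ∈ {β : K | HighCof ν β ∧ ε < β} | g β = γ} |
      (nn β, ii β) = x} := by
    have hun : {β ∈ {β : K | HighCof ν β ∧ ε < β} | g β = γ} =
        ⋃ x : I × J, {β ∈ {β ∈ {β : K | HighCof ν β ∧ ε < β} | g β = γ} |
          (nn β, ii β) = x} := by
      ext β
      simp
    rw [hun] at hS1
    refine (isStationary_iUnion_iff hK.ne' ?_).1 hS1
    rw [mk_prod]
    simp only [lift_id]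
    refine mul_lt_of_lt hK.le (hI.trans_lt hνK) hJ
  obtain ⟨⟨n, i⟩, hS2⟩ := hS2
  set S₂ : Set K := {β ∈ {β ∈ {β : K | HighCof ν β ∧ ε < β} | g β = γ} |
      (nn β, ii β) = (n, i)} with hS₂
  have hprop : ∀ β ∈ S₂, ε < β ∧ γ < β ∧ q β ≤ r β ∧ q β ∈ Q n ∧ L (γ, i) (β, vj β) (q β) ∧
      ∀ m, ∀ j ∈ A β, ∀ j' ∈ A β, f β m j j' < γ := by
    rintro β ⟨⟨⟨h1, h2⟩, h3⟩, h4⟩
    obtain ⟨h5, h6, h7⟩ := hg β ⟨h1, h2⟩
    rw [h3] at h5 h6 h7
    obtain ⟨h8, h9, h10⟩ := hqq β ⟨h2, h5⟩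
    simp only [Prod.mk.injEq] at h4
    rw [h4.1] at h9
    rw [h4.2] at h10
    exact ⟨h2, h5, h8, h9, h10, h7⟩
  -- step (E)
  have hE0 : ∀ β ∈ S₂, ∀ β' ∈ S₂, β < β' → ∀ p, p ≤ q β → p ≤ q β' → ∀ ξ < β,
      ∃ p' ≤ p, ∃ k, L (ξ, k) (β, vj β) p' ∧ L (ξ, k) (β', vj β') p' := by
    intro β hβ β' hβ' hlt p hp hp' ξ hξ
    obtain ⟨a1, a2, a3, a4, a5, a6⟩ := hprop β hβ
    obtain ⟨b1, b2, b3, b4, b5, b6⟩ := hprop β' hβ'
    obtain ⟨p1, hp1, j', hj'⟩ := F.exists_pred (β', vj β') p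
      (F.X_mono _ _ _ (hp'.trans b3) (hX β' b1)) β hlt
    have hj'A : j' ∈ A β := hcovA β' b1 p1 ((hp1.trans hp').trans b3) β a1 hlt j' hj'
    have hcommon : ∃ p' ≤ p1, ∃ k, L (ξ, k) (β, vj β) p' ∧ L (ξ, k) (β, j') p' := by
      by_contra hcon
      have hNC : NoCommon β ξ (vj β) j' p1 := by
        intro q' hq' k hk
        exact hcon ⟨q', hq', k, hk⟩
      obtain ⟨m, hm⟩ := hcov p1
      obtain ⟨q0, hq0m, hq0⟩ := hf2 β m (vj β) j' ⟨ξ, hξ, p1, hm, hNC⟩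
      obtain ⟨q1, hq1m, hq10, hq1p⟩ := hdir m q0 hq0m p1 hm
      have hξγ : f β m (vj β) j' < γ := a6 m _ (hvA β a1) _ hj'A
      -- w < v_β, w < (β, j')
      have hw1 : L (γ, i) (β, vj β) q1 := F.L_mono _ _ _ _ ((hq1p.trans hp1).trans hp) a5
      have hw2 : L (γ, i) (β', vj β') q1 := F.L_mono _ _ _ _ ((hq1p.trans hp1).trans hp') b5
      have hw3 : L (γ, i) (β, j') q1 := F.linear hw2 (F.L_mono _ _ _ _ hq1p hj') a2
      obtain ⟨q2, hq2, k, hk⟩ := F.exists_pred (γ, i) q1 (F.left_of_L _ _ _ hw1) _ hξγ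
      refine hq0 q2 (hq2.trans hq10) k ⟨?_, ?_⟩
      · exact F.trans _ _ _ _ hk (F.L_mono _ _ _ _ hq2 hw1)
      · exact F.trans _ _ _ _ hk (F.L_mono _ _ _ _ hq2 hw3)
    obtain ⟨p', hp', k, hk1, hk2⟩ := hcommon
    exact ⟨p', hp'.trans hp1, k, hk1, F.trans _ _ _ _ hk2 (F.L_mono _ _ _ _ hp' hj')⟩
  have hE1 : ∀ β ∈ S₂, ∀ β' ∈ S₂, β < β' → ∀ p, p ≤ q β → p ≤ q β' → ∀ s : K × J, s.1 < β →
      L s (β, vj β) p → L s (β', vj β') p := by
    intro β hβ β' hβ' hlt p hp hp' s hs hL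
    refine F.L_dense _ _ _ fun p1 hp1 => ?_
    obtain ⟨p2, hp2, k, hk1, hk2⟩ := hE0 β hβ β' hβ' hlt p1 (hp1.trans hp) (hp1.trans hp') s.1 hs
    have : k = s.2 := F.unique_pred _ _ _ _ p2 hk1 (F.L_mono _ _ _ _ (hp2.trans hp1) hL)
    subst this
    exact ⟨p2, hp2, hk2⟩
  -- step (F)
  have hunb : ∀ ζ : K, ∃ β ∈ S₂, ζ < β := by
    intro ζ
    obtain ⟨x, hx, hx'⟩ := hS2 (isClub_Ioi ζ)
    exact ⟨x, hx, hx'⟩
  have hF : ∃ q0 : P, ∀ q' ≤ q0, ∀ ζ : K, ∃ β ∈ S₂, ζ < β ∧ ∃ r' ≤ q', r' ≤ q β := by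
    by_contra hcon
    push Not at hcon
    let D : Set P := {q' | ∃ ζ, ∀ β ∈ S₂, ζ < β → ∀ r' ≤ q', ¬ r' ≤ q β}
    have hD : ∀ p, ∃ q' ≤ p, q' ∈ D := hcon
    have hζ : ∀ m : I, ∃ ζ : K, (∃ q', q' ∈ D ∧ q' ∈ Q m) →
        ∃ q', q' ∈ Q m ∧ ∀ β ∈ S₂, ζ < β → ∀ r' ≤ q', ¬ r' ≤ q β := by
      intro m
      by_cases h : ∃ q', q' ∈ D ∧ q' ∈ Q m
      · obtain ⟨q', ⟨ζ, hζ⟩, hm⟩ := h
        exact ⟨ζ, fun _ => ⟨q', hm, hζ⟩⟩
      · exact ⟨ε, fun h' => absurd h' h⟩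
    choose ζ hζ using hζ
    obtain ⟨ζ', hζ'⟩ := exists_forall_lt_of_mk_lt_cof (s := range ζ)
      (mk_range_le.trans_lt (hI.trans_lt hνK))
    obtain ⟨β, hβ, hζβ⟩ := hunb ζ'
    obtain ⟨q', hq', hq'D⟩ := hD (q β)
    obtain ⟨m, hm⟩ := hcov q'
    obtain ⟨q'', hq''m, hq''⟩ := hζ m ⟨q', hq'D, hm⟩
    obtain ⟨r', -, hr1, hr2⟩ := hdir m q' hm q'' hq''m
    exact hq'' β hβ ((hζ' _ (mem_range_self m)).trans hζβ) r' hr2 (hr1.trans hq')
  obtain ⟨q0, hq0⟩ := hF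
  -- step (G)
  refine ⟨q0, {x | ∃ β ∈ S₂, x.1.1 < β ∧ x.2 ≤ q β ∧ L x.1 (β, vj β) x.2}, ?_, ?_, ?_⟩
  · rintro s c ⟨β, -, -, -, hL⟩
    exact F.left_of_L _ _ _ hL
  · have key : ∀ (s : K × J) c t c', ∀ β ∈ S₂, s.1 < β → c ≤ q β → L s (β, vj β) c → ∀ β' ∈ S₂,
        t.1 < β' → c' ≤ q β' → L t (β', vj β') c' → β ≤ β' → ∀ r ≤ c, r ≤ c' →
        s = t ∨ L s t r ∨ L t s r := by
      intro s c t c' β hβ hsβ hcβ hLs β' hβ' htβ' hcβ' hLt hle r hrc hrc'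
      have h1 : L s (β', vj β') r := by
        rcases hle.eq_or_lt with rfl | hlt
        · exact F.L_mono _ _ _ _ hrc hLs
        · exact hE1 β hβ β' hβ' hlt r (hrc.trans hcβ) (hrc'.trans hcβ') s hsβ
            (F.L_mono _ _ _ _ hrc hLs)
      have h2 : L t (β', vj β') r := F.L_mono _ _ _ _ hrc' hLt
      rcases lt_trichotomy s.1 t.1 with h | h | h
      · exact Or.inr (Or.inl (F.linear h1 h2 h))
      · exact Or.inl (F.eq_of_level h1 h2 h)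
      · exact Or.inr (Or.inr (F.linear h2 h1 h))
    rintro s c t c' ⟨β, hβ, hsβ, hcβ, hLs⟩ ⟨β', hβ', htβ', hcβ', hLt⟩ r hrc hrc'
    rcases le_total β β' with hle | hle
    · exact key s c t c' β hβ hsβ hcβ hLs β' hβ' htβ' hcβ' hLt hle r hrc hrc'
    · rcases key t c' s c β' hβ' htβ' hcβ' hLt β hβ hsβ hcβ hLs hle r hrc' hrc with h | h | h
      · exact Or.inl h.symm
      · exact Or.inr (Or.inr h)
      · exact Or.inr (Or.inl h)
  · intro α q' hq'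
    obtain ⟨β, hβ, hαβ, r', hr', hr'β⟩ := hq0 q' hq' α
    obtain ⟨a1, a2, a3, a4, a5, a6⟩ := hprop β hβ
    obtain ⟨r2, hr2, k, hk⟩ := F.exists_pred (β, vj β) r' (F.right_of_L _ _ _
      (F.L_mono _ _ _ _ hr'β a5)) α hαβ
    exact ⟨r2, hr2.trans hr', k, r2, ⟨β, hβ, hαβ, hr2.trans hr'β, hk⟩, le_rfl⟩

end Pool.Agent.Helper65.TPPart2
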